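import Mathlib

/-!
# Edges of a polytope at a vertex (the simplex argument)

Finite point sets `V` in `ℝ^d` and their exposed subsets.
-/

set_option autoImplicit false

open scoped BigOperators

namespace Pool.Agent.KEQ.D4

variable {d : ℕ}

/-- every point of `V` is exposed in `V` -/
def Exs (V : Finset (Fin d → ℝ)) : Prop :=
  ∀ v ∈ V, ∃ g : Fin d → ℝ, ∀ x ∈ V, x ≠ v → g ⬝ᵥ x < g ⬝ᵥ v

/-- `V` lies in no hyperplane -/
def Ful (V : Finset (Fin d → ℝ)) : Prop :=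
  ∀ l : Fin d → ℝ, l ≠ 0 → ∀ v ∈ V, ∃ x ∈ V, l ⬝ᵥ x ≠ l ⬝ᵥ v

/-- `s` is an exposed subset of `V` -/
def ExpS (V s : Finset (Fin d → ℝ)) : Prop :=
  ∃ (f : Fin d → ℝ) (c : ℝ), (∀ x ∈ s, f ⬝ᵥ x = c) ∧ ∀ x ∈ V, x ∉ s → f ⬝ᵥ x < c

open Classical in
/-- the exposed subsets with `k` elements -/
noncomputable def XX (V : Finset (Fin d → ℝ)) (k : ℕ) : Finset (Finset (Fin d → ℝ)) :=
  (V.powersetCard k).filter (fun s => ExpS V s)

lemma mem_XX {V s : Finset (Fin d → ℝ)} {k : ℕ} :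
    s ∈ XX V k ↔ (s ⊆ V ∧ s.card = k) ∧ ExpS V s := by
  simp [XX, Finset.mem_powersetCard]

lemma small {α : Type*} (S : Finset α) (a b : α → ℝ) (ha : ∀ x ∈ S, 0 < a x) :
    ∃ ε : ℝ, 0 < ε ∧ ∀ x ∈ S, ε * b x < a x := by
  classical
  induction S using Finset.induction_on with
  | empty => exact ⟨1, one_pos, by simp⟩
  | insert y S hy ih =>
    obtain ⟨ε, hε, h⟩ := ih (fun x hx => ha x (Finset.mem_insert_of_mem hx))
    have hay := ha y (Finset.mem_insert_self _ _)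
    refine ⟨min ε (a y / (|b y| + 1)), lt_min hε (by positivity), ?_⟩
    intro x hx
    rcases Finset.mem_insert.1 hx with rfl | hx
    · have h1 : min ε (a x / (|b x| + 1)) * b x ≤ (a x / (|b x| + 1)) * |b x| := by
        calc min ε (a x / (|b x| + 1)) * b x ≤ min ε (a x / (|b x| + 1)) * |b x| :=
              mul_le_mul_of_nonneg_left (le_abs_self _) (le_min hε.le (by positivity))
          _ ≤ _ := mul_le_mul_of_nonneg_right (min_le_right _ _) (abs_nonneg _)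
      have h2 : (a x / (|b x| + 1)) * |b x| < a x := by
        rw [div_mul_eq_mul_div, div_lt_iff₀ (by positivity)]
        nlinarith [abs_nonneg (b x)]
      exact lt_of_le_of_lt h1 h2
    · rcases le_or_gt 0 (b x) with hb | hb
      · exact lt_of_le_of_lt (mul_le_mul_of_nonneg_right (min_le_left _ _) hb) (h x hx)
      · have h1 : min ε (a y / (|b y| + 1)) * b x ≤ 0 :=
          mul_nonpos_of_nonneg_of_nonpos (le_min hε.le (by positivity)) hb.le
        have h2 := ha x (Finset.mem_insert_of_mem hx)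
        linarith

lemma self_dot_pos {x : Fin d → ℝ} (hx : x ≠ 0) : 0 < x ⬝ᵥ x := by
  have h0 : 0 ≤ x ⬝ᵥ x := by
    unfold dotProduct
    exact Finset.sum_nonneg fun i _ => mul_self_nonneg _
  rcases h0.lt_or_eq with h | h
  · exact h
  · exfalso
    exact hx (dotProduct_self_eq_zero.1 h.symm)

/-- the simplex argument: if `v` does not maximise `l`, then some edge at `v` increases `l` -/
lemma simplex {V : Finset (Fin d → ℝ)} (hV : Exs V) {v : Fin d → ℝ} (hv : v ∈ V)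
    (l : Fin d → ℝ) (hl : ∃ u ∈ V, l ⬝ᵥ v < l ⬝ᵥ u) :
    ∃ u ∈ V, l ⬝ᵥ v < l ⬝ᵥ u ∧ ExpS V {v, u} := by
  classical
  obtain ⟨g, hg⟩ := hV v hv
  set U := V.filter (fun u => l ⬝ᵥ v < l ⬝ᵥ u) with hU
  have hUne : U.Nonempty := by
    obtain ⟨u, hu, h⟩ := hl
    exact ⟨u, Finset.mem_filter.2 ⟨hu, h⟩⟩
  have hUm : ∀ x, x ∈ U ↔ x ∈ V ∧ l ⬝ᵥ v < l ⬝ᵥ x := fun x => by simp [hU]
  set p : (Fin d → ℝ) → (Fin d → ℝ) := fun u => (1 / (l ⬝ᵥ u - l ⬝ᵥ v)) • (v - u) with hp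
  have hpd : ∀ (q u : Fin d → ℝ), q ⬝ᵥ p u = (q ⬝ᵥ v - q ⬝ᵥ u) / (l ⬝ᵥ u - l ⬝ᵥ v) := by
    intro q u
    simp only [hp, dotProduct_smul, dotProduct_sub, smul_eq_mul]
    ring
  -- the minimum of `g` over the points `p u`
  obtain ⟨u₀, hu₀, hmin⟩ := U.exists_min_image (fun u => g ⬝ᵥ p u) hUne
  set A := U.filter (fun u => g ⬝ᵥ p u = g ⬝ᵥ p u₀) with hA
  have hAne : A.Nonempty := ⟨u₀, Finset.mem_filter.2 ⟨hu₀, rfl⟩⟩
  obtain ⟨w, hw, hmax⟩ := A.exists_max_image (fun u => p u ⬝ᵥ p u) hAne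
  have hwU : w ∈ U := (Finset.mem_filter.1 hw).1
  have hwq : g ⬝ᵥ p w = g ⬝ᵥ p u₀ := (Finset.mem_filter.1 hw).2
  have hwV : w ∈ V := ((hUm w).1 hwU).1
  have hwl : l ⬝ᵥ v < l ⬝ᵥ w := ((hUm w).1 hwU).2
  have hvw : w ≠ v := by rintro rfl; exact lt_irrefl _ hwl
  -- the points `p u` are distinct
  have hinj : ∀ x ∈ U, x ≠ w → p x ≠ p w := by
    intro x hx hxw hpx
    have hxV : x ∈ V := ((hUm x).1 hx).1
    have hxl : l ⬝ᵥ v < l ⬝ᵥ x := ((hUm x).1 hx).2
    have hxv : x ≠ v := by rintro rfl; exact lt_irrefl _ hxl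
    set a := l ⬝ᵥ x - l ⬝ᵥ v with ha
    set b := l ⬝ᵥ w - l ⬝ᵥ v with hb
    have ha0 : 0 < a := by rw [ha]; linarith
    have hb0 : 0 < b := by rw [hb]; linarith
    have key : ∀ q : Fin d → ℝ, (q ⬝ᵥ v - q ⬝ᵥ x) * b = (q ⬝ᵥ v - q ⬝ᵥ w) * a := by
      intro q
      have h1 : q ⬝ᵥ p x = q ⬝ᵥ p w := by rw [hpx]
      rw [hpd, hpd, ← ha, ← hb, div_eq_div_iff ha0.ne' hb0.ne'] at h1
      exact h1
    have hab : a ≠ b := by
      intro hab
      apply hxw
      have h2 : ∀ q : Fin d → ℝ, q ⬝ᵥ (x - w) = 0 := by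
        intro q
        have h3 := key q
        rw [hab] at h3
        have h4 := mul_right_cancel₀ hb0.ne' h3
        rw [dotProduct_sub]
        linarith
      have h3 := h2 (x - w)
      exact sub_eq_zero.1 (dotProduct_self_eq_zero.1 h3)
    rcases lt_or_gt_of_ne hab with hab | hab
    · -- `x` between `v` and `w`
      obtain ⟨q, hq⟩ := hV x hxV
      have h1 := hq v hv (Ne.symm hxv)
      have h2 := hq w hwV (Ne.symm hxw)
      have h3 := key q
      nlinarith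
    · obtain ⟨q, hq⟩ := hV w hwV
      have h1 := hq v hv (Ne.symm hvw)
      have h2 := hq x hxV hxw
      have h3 := key q
      nlinarith
  -- the perturbation
  obtain ⟨ε₁, hε₁, h₁⟩ := small (U.filter (fun x => g ⬝ᵥ p x ≠ g ⬝ᵥ p w))
    (fun x => g ⬝ᵥ p x - g ⬝ᵥ p w) (fun x => p w ⬝ᵥ p x - p w ⬝ᵥ p w) (by
      intro x hx
      obtain ⟨hx1, hx2⟩ := Finset.mem_filter.1 hx
      have h3 := hmin x hx1
      have h4 : g ⬝ᵥ p w ≤ g ⬝ᵥ p x := by rw [hwq]; exact h3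
      have := lt_of_le_of_ne h4 (Ne.symm hx2)
      linarith)
  obtain ⟨ε₂, hε₂, h₂⟩ := small (V.erase v)
    (fun x => g ⬝ᵥ v - g ⬝ᵥ x) (fun x => p w ⬝ᵥ v - p w ⬝ᵥ x) (by
      intro x hx
      obtain ⟨hx1, hx2⟩ := Finset.mem_erase.1 hx
      have := hg x hx2 hx1
      linarith)
  set ε := min ε₁ ε₂ with hε
  have hε0 : 0 < ε := lt_min hε₁ hε₂
  set G : Fin d → ℝ := g - ε • p w with hG
  have hGd : ∀ x, G ⬝ᵥ x = g ⬝ᵥ x - ε * (p w ⬝ᵥ x) := by
    intro x
    rw [hG, sub_dotProduct, smul_dotProduct, smul_eq_mul]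
  have hmono : ∀ (e ε' a b : ℝ), 0 < e → e ≤ ε' → 0 < a → ε' * b < a → e * b < a := by
    intro e ε' a b he hee ha hab
    rcases le_or_gt 0 b with hb | hb
    · exact lt_of_le_of_lt (mul_le_mul_of_nonneg_right hee hb) hab
    · have : e * b ≤ 0 := mul_nonpos_of_nonneg_of_nonpos he.le hb.le
      linarith
  -- `G` exposes `v`
  have hGv : ∀ x ∈ V, x ≠ v → G ⬝ᵥ x < G ⬝ᵥ v := by
    intro x hx hxv
    have h3 := h₂ x (Finset.mem_erase.2 ⟨hxv, hx⟩)
    have h4 := hg x hx hxv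
    have h5 := hmono ε ε₂ _ _ hε0 (min_le_right _ _) (by linarith) h3
    rw [hGd, hGd]
    nlinarith
  -- `w` is the unique minimiser
  have hGw : ∀ x ∈ U, x ≠ w → G ⬝ᵥ p w < G ⬝ᵥ p x := by
    intro x hx hxw
    rw [hGd, hGd]
    by_cases hq : g ⬝ᵥ p x = g ⬝ᵥ p w
    · have hxA : x ∈ A := Finset.mem_filter.2 ⟨hx, by rw [hq, hwq]⟩
      have h3 := hmax x hxA
      have h4 : 0 < (p w - p x) ⬝ᵥ (p w - p x) :=
        self_dot_pos (sub_ne_zero.2 (Ne.symm (hinj x hx hxw)))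
      have h5 : (p w - p x) ⬝ᵥ (p w - p x) = p w ⬝ᵥ p w - 2 * (p w ⬝ᵥ p x) + p x ⬝ᵥ p x := by
        rw [sub_dotProduct, dotProduct_sub, dotProduct_sub, dotProduct_comm (p x) (p w)]
        ring
      have h3' : p x ⬝ᵥ p x ≤ p w ⬝ᵥ p w := h3
      have h6 : p w ⬝ᵥ p x < p w ⬝ᵥ p w := by linarith
      rw [hq]
      nlinarith
    · have h3 := h₁ x (Finset.mem_filter.2 ⟨hx, hq⟩)
      have h4 : g ⬝ᵥ p w ≤ g ⬝ᵥ p x := by rw [hwq]; exact hmin x hx
      have h5 := lt_of_le_of_ne h4 (Ne.symm hq)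
      have h6 := hmono ε ε₁ _ _ hε0 (min_le_left _ _) (by linarith) h3
      nlinarith
  have hGpos : ∀ x ∈ U, 0 < G ⬝ᵥ p x := by
    intro x hx
    obtain ⟨hxV, hxl⟩ := (hUm x).1 hx
    have hxv : x ≠ v := by rintro rfl; exact lt_irrefl _ hxl
    rw [hpd]
    exact div_pos (by have := hGv x hxV hxv; linarith) (by linarith)
  have hk := hGpos w hwU
  set k := G ⬝ᵥ p w with hkdef
  refine ⟨w, hwV, hwl, k • l + G, k * (l ⬝ᵥ v) + G ⬝ᵥ v, ?_, ?_⟩
  · intro x hx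
    rw [add_dotProduct, smul_dotProduct, smul_eq_mul]
    rcases Finset.mem_insert.1 hx with rfl | hx
    · rfl
    · rw [Finset.mem_singleton.1 hx]
      have h3 := hpd G w
      rw [← hkdef, eq_div_iff (by linarith)] at h3
      linarith
  · intro x hxV hxs
    have hxv : x ≠ v := by
      rintro rfl; exact hxs (Finset.mem_insert_self _ _)
    have hxw : x ≠ w := by
      rintro rfl; exact hxs (Finset.mem_insert_of_mem (Finset.mem_singleton_self _))
    rw [add_dotProduct, smul_dotProduct, smul_eq_mul]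
    have h4 := hGv x hxV hxv
    by_cases hxl : l ⬝ᵥ v < l ⬝ᵥ x
    · have hxU : x ∈ U := (hUm x).2 ⟨hxV, hxl⟩
      have h5 := hGw x hxU hxw
      have h6 := hpd G x
      rw [eq_div_iff (by linarith)] at h6
      nlinarith
    · have h5 : k * (l ⬝ᵥ x) ≤ k * (l ⬝ᵥ v) :=
        mul_le_mul_of_nonneg_left (not_lt.1 hxl) hk.le
      linarith

/-- at least `d` edges at each vertex -/
lemma degree {V : Finset (Fin d → ℝ)} (hV : Exs V) (hF : Ful V) {v : Fin d → ℝ} (hv : v ∈ V) :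
    d ≤ ((XX V 2).filter (fun s => v ∈ s)).card := by
  classical
  by_contra hcon
  push Not at hcon
  set N := (XX V 2).filter (fun s => v ∈ s) with hN
  let Φ : (Fin d → ℝ) →ₗ[ℝ] (N → ℝ) :=
    { toFun := fun l s => ∑ x ∈ s.1, (l ⬝ᵥ x - l ⬝ᵥ v)
      map_add' := by
        intro a b
        funext s
        simp only [add_dotProduct, Pi.add_apply]
        rw [← Finset.sum_add_distrib]
        exact Finset.sum_congr rfl fun x _ => by ring
      map_smul' := by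
        intro a b
        funext s
        simp only [smul_dotProduct, Pi.smul_apply, smul_eq_mul, RingHom.id_apply]
        rw [Finset.mul_sum]
        exact Finset.sum_congr rfl fun x _ => by ring }
  have hker : LinearMap.ker Φ ≠ ⊥ := by
    apply LinearMap.ker_ne_bot_of_finrank_lt
    simpa using hcon
  obtain ⟨l, hl, hl0⟩ := (Submodule.ne_bot_iff _).1 hker
  have hΦ : ∀ u ∈ V, u ≠ v → ExpS V {v, u} → l ⬝ᵥ u = l ⬝ᵥ v := by
    intro u hu huv hex
    have hs : ({v, u} : Finset (Fin d → ℝ)) ∈ N := by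
      rw [hN, Finset.mem_filter, mem_XX]
      refine ⟨⟨⟨?_, Finset.card_pair (Ne.symm huv)⟩, hex⟩, Finset.mem_insert_self _ _⟩
      intro x hx
      rcases Finset.mem_insert.1 hx with rfl | hx
      · exact hv
      · rw [Finset.mem_singleton.1 hx]; exact hu
    have h1 : Φ l ⟨_, hs⟩ = 0 := by
      rw [LinearMap.mem_ker.1 hl]; rfl
    have h2 : Φ l ⟨_, hs⟩ = ∑ x ∈ ({v, u} : Finset (Fin d → ℝ)), (l ⬝ᵥ x - l ⬝ᵥ v) := rfl
    rw [h2, Finset.sum_pair (Ne.symm huv)] at h1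
    linarith
  obtain ⟨x, hx, hxl⟩ := hF l hl0 v hv
  rcases lt_or_gt_of_ne hxl with h | h
  · obtain ⟨u, hu, hul, hex⟩ := simplex hV hv (-l) ⟨x, hx, by
      rw [neg_dotProduct, neg_dotProduct]; linarith⟩
    rw [neg_dotProduct, neg_dotProduct] at hul
    have := hΦ u hu (by rintro rfl; exact lt_irrefl _ hul) hex
    linarith
  · obtain ⟨u, hu, hul, hex⟩ := simplex hV hv l ⟨x, hx, h⟩
    have := hΦ u hu (by rintro rfl; exact lt_irrefl _ hul) hex
    linarith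

lemma card_two {V : Finset (Fin d → ℝ)} (hV : Exs V) (hF : Ful V) :
    d * V.card ≤ 2 * (XX V 2).card := by
  classical
  have h1 : ∑ v ∈ V, ((XX V 2).filter (fun s => v ∈ s)).card =
      ∑ s ∈ XX V 2, (V.filter (fun v => v ∈ s)).card := by
    exact Finset.sum_card_bipartiteAbove_eq_sum_card_bipartiteBelow (fun v s => v ∈ s)
  have h2 : ∑ s ∈ XX V 2, (V.filter (fun v => v ∈ s)).card = ∑ s ∈ XX V 2, 2 := by
    refine Finset.sum_congr rfl fun s hs => ?_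
    obtain ⟨⟨h3, h4⟩, _⟩ := mem_XX.1 hs
    rw [← h4]
    congr 1
    ext x
    rw [Finset.mem_filter]
    exact ⟨fun h => h.2, fun h => ⟨h3 h, h⟩⟩
  have h3 : ∑ v ∈ V, d ≤ ∑ v ∈ V, ((XX V 2).filter (fun s => v ∈ s)).card :=
    Finset.sum_le_sum fun v hv => degree hV hF hv
  rw [h1, h2] at h3
  simp only [Finset.sum_const, smul_eq_mul] at h3
  rw [mul_comm d, mul_comm 2]
  exact h3

lemma card_one {V : Finset (Fin d → ℝ)} (hV : Exs V) : V.card ≤ (XX V 1).card := by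
  classical
  refine Finset.card_le_card_of_injOn (fun v => {v}) ?_ ?_
  · intro v hv
    obtain ⟨g, hg⟩ := hV v hv
    refine mem_XX.2 ⟨⟨Finset.singleton_subset_iff.2 hv, Finset.card_singleton _⟩, g, g ⬝ᵥ v, ?_, ?_⟩
    · intro x hx
      rw [Finset.mem_singleton.1 hx]
    · intro x hx hxs
      exact hg x hx (fun h => hxs (Finset.mem_singleton.2 h))
  · intro x _ y _ h
    exact Finset.singleton_injective h

/-- `2 (f_0 + f_1) ≥ (d + 2) f_0` -/
lemma card_union {V : Finset (Fin d → ℝ)} (hV : Exs V) (hF : Ful V) :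
    ∃ X : Finset (Finset (Fin d → ℝ)), (∀ s ∈ X, s ∈ XX V 1 ∨ s ∈ XX V 2) ∧
      (d + 2) * V.card ≤ 2 * X.card := by
  classical
  refine ⟨XX V 1 ∪ XX V 2, fun s hs => Finset.mem_union.1 hs, ?_⟩
  have hdisj : Disjoint (XX V 1) (XX V 2) := by
    rw [Finset.disjoint_left]
    intro s h1 h2
    have h3 := (mem_XX.1 h1).1.2
    have h4 := (mem_XX.1 h2).1.2
    omega
  rw [Finset.card_union_of_disjoint hdisj]
  have h1 := card_two hV hF
  have h2 := card_one hV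
  nlinarith

end Pool.Agent.KEQ.D4
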