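import Mathlib
import Pool.Agent.K3E.Vtx
import Pool.Agent.KEQ.D4a

/-!
# Centrally symmetric polytopes of dimension at most four with many vertices and facets

If a centrally symmetric `d`-polytope, `d ≤ 4`, has at most `3 ^ d` nonempty faces, then it has at
most `2 (d + 2)` vertices or is cut out by `d + 2` symmetric slabs.
-/

set_option autoImplicit false

open scoped BigOperators

open Pool.Agent.K3E

namespace Pool.Agent.KEQ.D4

variable {d : ℕ}

lemma dot_hull {V : Finset (Fin d → ℝ)} {x : Fin d → ℝ}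
    (hx : x ∈ convexHull ℝ (V : Set (Fin d → ℝ))) :
    ∃ μ : (Fin d → ℝ) → ℝ, (∀ y ∈ V, 0 ≤ μ y) ∧ ∑ y ∈ V, μ y = 1 ∧
      ∀ q : Fin d → ℝ, q ⬝ᵥ x = ∑ y ∈ V, μ y * (q ⬝ᵥ y) := by
  rw [Finset.mem_convexHull'] at hx
  obtain ⟨μ, h0, h1, h2⟩ := hx
  refine ⟨μ, h0, h1, fun q => ?_⟩
  rw [← h2, dotProduct_sum]
  exact Finset.sum_congr rfl fun y _ => by rw [dotProduct_smul, smul_eq_mul]

lemma dot_le_hull {V : Finset (Fin d → ℝ)} {x : Fin d → ℝ}
    (hx : x ∈ convexHull ℝ (V : Set (Fin d → ℝ))) (q : Fin d → ℝ) (c : ℝ)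
    (h : ∀ y ∈ V, q ⬝ᵥ y ≤ c) : q ⬝ᵥ x ≤ c := by
  obtain ⟨μ, h0, h1, h2⟩ := dot_hull hx
  rw [h2 q]
  calc ∑ y ∈ V, μ y * (q ⬝ᵥ y) ≤ ∑ y ∈ V, μ y * c :=
        Finset.sum_le_sum fun y hy => mul_le_mul_of_nonneg_left (h y hy) (h0 y hy)
    _ = c := by rw [← Finset.sum_mul, h1, one_mul]

/-- a functional which is `1` on the vertices of a face is `1` on the face -/
lemma dot_face {V : Finset (Fin d → ℝ)} {x : Fin d → ℝ}
    (hx : x ∈ convexHull ℝ (V : Set (Fin d → ℝ))) (f : Fin d → ℝ) (c : ℝ)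
    (hle : ∀ y ∈ V, f ⬝ᵥ y ≤ c) (hfx : f ⬝ᵥ x = c) (q : Fin d → ℝ) (e : ℝ)
    (hq : ∀ y ∈ V, f ⬝ᵥ y = c → q ⬝ᵥ y = e) : q ⬝ᵥ x = e := by
  obtain ⟨μ, h0, h1, h2⟩ := dot_hull hx
  have h3 : ∑ y ∈ V, μ y * (c - f ⬝ᵥ y) = 0 := by
    have h4 : ∑ y ∈ V, μ y * (c - f ⬝ᵥ y) = ∑ y ∈ V, μ y * c - ∑ y ∈ V, μ y * (f ⬝ᵥ y) := by
      rw [← Finset.sum_sub_distrib]
      exact Finset.sum_congr rfl fun y _ => by ring
    rw [h4, ← Finset.sum_mul, h1, ← h2 f, hfx]
    ring
  have h4 := (Finset.sum_eq_zero_iff_of_nonneg (fun y hy =>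
    mul_nonneg (h0 y hy) (by have := hle y hy; linarith))).1 h3
  rw [h2 q]
  calc ∑ y ∈ V, μ y * (q ⬝ᵥ y) = ∑ y ∈ V, μ y * e := by
        refine Finset.sum_congr rfl fun y hy => ?_
        rcases mul_eq_zero.1 (h4 y hy) with h | h
        · rw [h]; ring
        · rw [hq y hy (by linarith)]
    _ = e := by rw [← Finset.sum_mul, h1, one_mul]

open Classical in
/-- vertices in a face -/
noncomputable def TV (V : Finset (Fin d → ℝ)) (F : Set (Fin d → ℝ)) : Finset (Fin d → ℝ) :=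
  V.filter (fun x => x ∈ F)

open Classical in
/-- facets containing a face -/
noncomputable def TW (W : Finset (Fin d → ℝ)) (F : Set (Fin d → ℝ)) : Finset (Fin d → ℝ) :=
  W.filter (fun w => ∀ x ∈ F, w ⬝ᵥ x = 1)

lemma mem_TV {V : Finset (Fin d → ℝ)} {F : Set (Fin d → ℝ)} {x : Fin d → ℝ} :
    x ∈ TV V F ↔ x ∈ V ∧ x ∈ F := by simp [TV]

lemma mem_TW {W : Finset (Fin d → ℝ)} {F : Set (Fin d → ℝ)} {w : Fin d → ℝ} :
    w ∈ TW W F ↔ w ∈ W ∧ ∀ x ∈ F, w ⬝ᵥ x = 1 := by simp [TW]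

/-- the exposed face of a functional -/
lemma face_mem {P : Set (Fin d → ℝ)} (f : Fin d → ℝ) (c : ℝ) (hle : ∀ x ∈ P, f ⬝ᵥ x ≤ c)
    (hex : ∃ x ∈ P, f ⬝ᵥ x = c) : {x | x ∈ P ∧ f ⬝ᵥ x = c} ∈ Fc P := by
  obtain ⟨x₀, hx₀, hfx₀⟩ := hex
  refine ⟨fun _ => ⟨DD f, ?_⟩, x₀, hx₀, hfx₀⟩
  ext x
  constructor
  · rintro ⟨hx, hfx⟩
    refine ⟨hx, fun y hy => ?_⟩
    rw [DD_apply, DD_apply, hfx]
    exact hle y hy
  · rintro ⟨hx, h⟩
    have h1 := h x₀ hx₀
    rw [DD_apply, DD_apply, hfx₀] at h1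
    exact ⟨hx, le_antisymm (hle x hx) h1⟩

/-- faces from exposed sets of vertices -/
lemma face_V {V W : Finset (Fin d → ℝ)} {P : Set (Fin d → ℝ)}
    (hPV : P = convexHull ℝ (V : Set (Fin d → ℝ))) (hPW : P = {x | ∀ w ∈ W, w ⬝ᵥ x ≤ 1})
    {k : ℕ} (hk : 1 ≤ k) (hk2 : k ≤ 2) {s : Finset (Fin d → ℝ)} (hs : s ∈ XX V k) :
    ∃ F ∈ Fc P, TV V F = s ∧ d ≤ (TW W F).card + 1 := by
  classical
  obtain ⟨⟨hsV, hsk⟩, f, c, hf, hfc⟩ := mem_XX.1 hs
  have hVP : ∀ x ∈ V, x ∈ P := fun x hx => by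
    rw [hPV]; exact subset_convexHull ℝ _ hx
  have hle : ∀ y ∈ V, f ⬝ᵥ y ≤ c := by
    intro y hy
    by_cases hys : y ∈ s
    · exact (hf y hys).le
    · exact (hfc y hy hys).le
  have hleP : ∀ x ∈ P, f ⬝ᵥ x ≤ c := fun x hx => by
    rw [hPV] at hx
    exact dot_le_hull hx f c hle
  -- the two points
  obtain ⟨u, v, hus, hvs, huv⟩ : ∃ u v, u ∈ s ∧ v ∈ s ∧ ∀ x ∈ s, x = u ∨ x = v := by
    interval_cases k
    · obtain ⟨u, hu⟩ := Finset.card_eq_one.1 hsk
      refine ⟨u, u, ?_, ?_, ?_⟩ <;> simp [hu]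
    · obtain ⟨u, v, _, hu⟩ := Finset.card_eq_two.1 hsk
      refine ⟨u, v, ?_, ?_, ?_⟩ <;> simp [hu]
  have hmem : {x | x ∈ P ∧ f ⬝ᵥ x = c} ∈ Fc P :=
    face_mem f c hleP ⟨u, hVP u (hsV hus), hf u hus⟩
  refine ⟨_, hmem, ?_, ?_⟩
  · ext x
    rw [mem_TV]
    constructor
    · rintro ⟨hx, _, hfx⟩
      by_contra hxs
      exact absurd hfx (hfc x hx hxs).ne
    · intro hx
      exact ⟨hsV hx, hVP x (hsV hx), hf x hx⟩
  · by_contra hcon
    push Not at hcon
    set T := TW W {x | x ∈ P ∧ f ⬝ᵥ x = c} with hT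
    -- a direction
    have hex : ∃ y : Fin d → ℝ, y ≠ 0 ∧ (∀ w ∈ T, w ⬝ᵥ y = 0) ∧ (u - v) ⬝ᵥ y = 0 := by
      let Φ : (Fin d → ℝ) →ₗ[ℝ] ((T → ℝ) × ℝ) :=
        { toFun := fun y => (fun w => w.1 ⬝ᵥ y, (u - v) ⬝ᵥ y)
          map_add' := by
            intro a b
            ext
            · simp [dotProduct_add]
            · simp [dotProduct_add]
          map_smul' := by
            intro a b
            ext
            · simp [dotProduct_smul]
            · simp [dotProduct_smul] }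
      have hker : LinearMap.ker Φ ≠ ⊥ := by
        apply LinearMap.ker_ne_bot_of_finrank_lt
        simpa using hcon
      obtain ⟨y, hy, hy0⟩ := (Submodule.ne_bot_iff _).1 hker
      have h1 : Φ y = 0 := LinearMap.mem_ker.1 hy
      refine ⟨y, hy0, ?_, ?_⟩
      · intro w hw
        have := congrFun (congrArg Prod.fst h1) ⟨w, hw⟩
        exact this
      · exact congrArg Prod.snd h1
    obtain ⟨y, hy0, hyT, hyuv⟩ := hex
    -- the midpoint
    set m : Fin d → ℝ := (1 / 2 : ℝ) • u + (1 / 2 : ℝ) • v with hm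
    have hmd : ∀ q : Fin d → ℝ, q ⬝ᵥ m = (q ⬝ᵥ u + q ⬝ᵥ v) / 2 := by
      intro q
      rw [hm, dotProduct_add, dotProduct_smul, dotProduct_smul, smul_eq_mul, smul_eq_mul]
      ring
    have huP := hVP u (hsV hus)
    have hvP := hVP v (hsV hvs)
    have hmT : ∀ w ∈ W, w ∉ T → w ⬝ᵥ m < 1 := by
      intro w hw hwT
      have h1 : w ⬝ᵥ u ≤ 1 := by
        rw [hPW] at huP; exact huP w hw
      have h2 : w ⬝ᵥ v ≤ 1 := by
        rw [hPW] at hvP; exact hvP w hw
      rw [hmd]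
      by_contra hge
      push Not at hge
      have h3 : w ⬝ᵥ u = 1 := by linarith
      have h4 : w ⬝ᵥ v = 1 := by linarith
      apply hwT
      rw [hT, mem_TW]
      refine ⟨hw, ?_⟩
      rintro x ⟨hxP, hfx⟩
      rw [hPV] at hxP
      refine dot_face hxP f c hle hfx w 1 ?_
      intro z hz hfz
      have hzs : z ∈ s := by
        by_contra hzs
        exact absurd hfz (hfc z hz hzs).ne
      rcases huv z hzs with rfl | rfl
      · exact h3
      · exact h4
    -- move a little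
    obtain ⟨ε₁, hε₁, h₁⟩ := small (W.filter (fun w => w ∉ T)) (fun w => 1 - w ⬝ᵥ m)
      (fun w => |w ⬝ᵥ y|) (by
        intro w hw
        obtain ⟨hw1, hw2⟩ := Finset.mem_filter.1 hw
        have := hmT w hw1 hw2
        linarith)
    have hmove : ∀ t : ℝ, |t| ≤ ε₁ → m + t • y ∈ P := by
      intro t ht
      rw [hPW]
      intro w hw
      rw [dotProduct_add, dotProduct_smul, smul_eq_mul]
      by_cases hwT : w ∈ T
      · rw [hyT w hwT, mul_zero, add_zero, hmd]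
        have h1 : w ⬝ᵥ u ≤ 1 := by
          rw [hPW] at huP; exact huP w hw
        have h2 : w ⬝ᵥ v ≤ 1 := by
          rw [hPW] at hvP; exact hvP w hw
        linarith
      · have h3 := h₁ w (Finset.mem_filter.2 ⟨hw, hwT⟩)
        have h4 : t * (w ⬝ᵥ y) ≤ ε₁ * |w ⬝ᵥ y| := by
          calc t * (w ⬝ᵥ y) ≤ |t * (w ⬝ᵥ y)| := le_abs_self _
            _ = |t| * |w ⬝ᵥ y| := abs_mul _ _
            _ ≤ _ := mul_le_mul_of_nonneg_right ht (abs_nonneg _)
        linarith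
    have hfm : f ⬝ᵥ m = c := by
      rw [hmd, hf u hus, hf v hvs]; ring
    have hfy : f ⬝ᵥ y = 0 := by
      have h1 := hleP _ (hmove ε₁ (by rw [abs_of_pos hε₁]))
      have h2 := hleP _ (hmove (-ε₁) (by rw [abs_neg, abs_of_pos hε₁]))
      rw [dotProduct_add, dotProduct_smul, smul_eq_mul, hfm] at h1 h2
      have h3 : ε₁ * (f ⬝ᵥ y) ≤ 0 := by linarith
      have h4 : 0 ≤ ε₁ * (f ⬝ᵥ y) := by nlinarith
      have h5 : ε₁ * (f ⬝ᵥ y) = 0 := le_antisymm h3 h4
      exact (mul_eq_zero.1 h5).resolve_left hε₁.ne'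
    -- the perturbed functional
    obtain ⟨δ, hδ, h₂⟩ := small (V.filter (fun x => x ∉ s)) (fun x => c - f ⬝ᵥ x)
      (fun x => y ⬝ᵥ x - y ⬝ᵥ m) (by
        intro x hx
        obtain ⟨hx1, hx2⟩ := Finset.mem_filter.1 hx
        have := hfc x hx1 hx2
        linarith)
    have hyu : y ⬝ᵥ u = y ⬝ᵥ v := by
      rw [sub_dotProduct] at hyuv
      rw [dotProduct_comm y u, dotProduct_comm y v]
      linarith
    have h5 : ∀ z ∈ V, (f + δ • y) ⬝ᵥ z ≤ c + δ * (y ⬝ᵥ m) := by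
      intro z hz
      rw [add_dotProduct, smul_dotProduct, smul_eq_mul]
      by_cases hzs : z ∈ s
      · rw [hf z hzs, hmd]
        rcases huv z hzs with rfl | rfl
        · rw [hyu]; linarith
        · rw [← hyu]; linarith
      · have := h₂ z (Finset.mem_filter.2 ⟨hz, hzs⟩)
        linarith
    have h6 := hmove ε₁ (by rw [abs_of_pos hε₁])
    rw [hPV] at h6
    have h7 := dot_le_hull h6 (f + δ • y) _ h5
    rw [add_dotProduct, smul_dotProduct, smul_eq_mul, dotProduct_add f m, dotProduct_add y m,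
      dotProduct_smul ε₁ f y, dotProduct_smul ε₁ y y, smul_eq_mul, smul_eq_mul, hfm, hfy] at h7
    have h8 := self_dot_pos hy0
    have h9 : 0 < δ * (ε₁ * (y ⬝ᵥ y)) := by positivity
    linarith

/-- faces from exposed sets of facets -/
lemma face_W {W : Finset (Fin d → ℝ)} {P : Set (Fin d → ℝ)}
    (hPW : P = {x | ∀ w ∈ W, w ⬝ᵥ x ≤ 1}) (hneg : ∀ w ∈ W, -w ∈ W)
    {k : ℕ} (hkW : k < W.card) {s : Finset (Fin d → ℝ)} (hs : s ∈ XX W k) :
    ∃ F ∈ Fc P, TW W F = s := by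
  classical
  obtain ⟨⟨hsW, hsk⟩, f, c, hf, hfc⟩ := mem_XX.1 hs
  have hc : 0 < c := by
    obtain ⟨w, hw, hws⟩ : ∃ w ∈ W, w ∉ s := by
      by_contra hcon
      push Not at hcon
      have : W.card ≤ s.card := Finset.card_le_card hcon
      omega
    have h1 := hfc w hw hws
    by_contra hc
    have h2 : f ⬝ᵥ (-w) ≤ c := by
      by_cases h : -w ∈ s
      · exact (hf _ h).le
      · exact (hfc _ (hneg w hw) h).le
    rw [dotProduct_neg] at h2
    linarith
  set x₀ : Fin d → ℝ := (1 / c) • f with hx₀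
  have hx₀d : ∀ w, w ⬝ᵥ x₀ = (f ⬝ᵥ w) / c := by
    intro w
    rw [hx₀, dotProduct_smul, smul_eq_mul, dotProduct_comm w f]
    ring
  have hx₀s : ∀ w ∈ s, w ⬝ᵥ x₀ = 1 := by
    intro w hw
    rw [hx₀d, hf w hw, div_self hc.ne']
  have hx₀n : ∀ w ∈ W, w ∉ s → w ⬝ᵥ x₀ < 1 := by
    intro w hw hws
    rw [hx₀d, div_lt_one hc]
    exact hfc w hw hws
  have hx₀P : x₀ ∈ P := by
    rw [hPW]
    intro w hw
    by_cases h : w ∈ s
    · exact (hx₀s w h).le
    · exact (hx₀n w hw h).le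
  have hsum : ∀ x, (∑ w ∈ s, w) ⬝ᵥ x = ∑ w ∈ s, w ⬝ᵥ x := fun x => sum_dotProduct _ _ _
  have hleP : ∀ x ∈ P, (∑ w ∈ s, w) ⬝ᵥ x ≤ (s.card : ℝ) := by
    intro x hx
    rw [hsum]
    rw [hPW] at hx
    calc ∑ w ∈ s, w ⬝ᵥ x ≤ ∑ w ∈ s, (1 : ℝ) := Finset.sum_le_sum fun w hw => hx w (hsW hw)
      _ = _ := by simp
  have hx₀F : (∑ w ∈ s, w) ⬝ᵥ x₀ = (s.card : ℝ) := by
    rw [hsum, Finset.sum_congr rfl hx₀s]
    simp
  refine ⟨_, face_mem (∑ w ∈ s, w) (s.card : ℝ) hleP ⟨x₀, hx₀P, hx₀F⟩, ?_⟩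
  ext w
  rw [mem_TW]
  constructor
  · rintro ⟨hw, h⟩
    by_contra hws
    have h1 := h x₀ ⟨hx₀P, hx₀F⟩
    exact absurd h1 (hx₀n w hw hws).ne
  · intro hw
    refine ⟨hsW hw, ?_⟩
    rintro x ⟨hxP, hxF⟩
    rw [hPW] at hxP
    rw [hsum] at hxF
    by_contra hne
    have hlt : w ⬝ᵥ x < 1 := lt_of_le_of_ne (hxP w (hsW hw)) hne
    have h1 : ∑ w ∈ s, w ⬝ᵥ x < ∑ w ∈ s, (1 : ℝ) :=
      Finset.sum_lt_sum (fun w hw => hxP w (hsW hw)) ⟨w, hw, hlt⟩
    rw [hxF] at h1
    simp at h1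

/-- data of a symmetric polytope -/
lemma data {P : Set (Fin d → ℝ)} (hd : 1 ≤ d) (S : Finset (Fin d → ℝ))
    (hS : P = convexHull ℝ (S : Set (Fin d → ℝ))) (hint : (interior P).Nonempty)
    (hsym : ∀ x ∈ P, -x ∈ P) :
    ∃ V : Finset (Fin d → ℝ), (∀ x, x ∈ V ↔ x ∈ Set.extremePoints ℝ P) ∧
      P = convexHull ℝ (V : Set (Fin d → ℝ)) ∧ (∀ x ∈ V, -x ∈ V) ∧
      (0 : Fin d → ℝ) ∉ V ∧ Exs V ∧ Ful V := by
  classical
  have hcomp : IsCompact P := by
    rw [hS]
    exact Set.Finite.isCompact_convexHull ℝ S.finite_toSet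
  have hconv : Convex ℝ P := by
    rw [hS]
    exact convex_convexHull ℝ _
  have hVS : Set.extremePoints ℝ P ⊆ (S : Set (Fin d → ℝ)) := by
    rw [hS]
    exact extremePoints_convexHull_subset
  have hVfin : (Set.extremePoints ℝ P).Finite := S.finite_toSet.subset hVS
  set V : Finset (Fin d → ℝ) := hVfin.toFinset with hV
  have hVmem : ∀ x, x ∈ V ↔ x ∈ Set.extremePoints ℝ P := fun x => hVfin.mem_toFinset
  have hPV : P = convexHull ℝ (V : Set (Fin d → ℝ)) := by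
    have h1 := closure_convexHull_extremePoints hcomp hconv
    have h2 : (V : Set (Fin d → ℝ)) = Set.extremePoints ℝ P := by
      ext x; exact hVmem x
    have h3 : IsClosed (convexHull ℝ (V : Set (Fin d → ℝ))) :=
      (Set.Finite.isCompact_convexHull ℝ V.finite_toSet).isClosed
    rw [← h2, h3.closure_eq] at h1
    exact h1.symm
  have hVneg : ∀ x ∈ V, -x ∈ V := by
    intro x hx
    rw [hVmem] at hx ⊢
    refine ⟨hsym x hx.1, ?_⟩
    intro x₁ h₁ x₂ h₂ hseg
    have h₁' := hsym x₁ h₁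
    have h₂' := hsym x₂ h₂
    have hseg' : x ∈ openSegment ℝ (-x₁) (-x₂) := by
      obtain ⟨s, t, hs, ht, hst, hx'⟩ := hseg
      refine ⟨s, t, hs, ht, hst, ?_⟩
      rw [smul_neg, smul_neg, ← neg_add, hx', neg_neg]
    have := hx.2 h₁' h₂' hseg'
    rw [← this, neg_neg]
  have hV0 : (0 : Fin d → ℝ) ∉ V := by
    intro h0
    rw [hVmem] at h0
    have hP0 : P ⊆ {0} := by
      intro x hx
      have hseg : (0 : Fin d → ℝ) ∈ openSegment ℝ x (-x) :=
        ⟨1 / 2, 1 / 2, by norm_num, by norm_num, by norm_num, by simp⟩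
      exact h0.2 hx (hsym x hx) hseg
    obtain ⟨x₀, hx₀⟩ := hint
    have : Nonempty (Fin d) := ⟨⟨0, hd⟩⟩
    have h1 : interior ({0} : Set (Fin d → ℝ)) = ∅ := interior_singleton _
    have h2 := interior_mono hP0 hx₀
    rw [h1] at h2
    exact h2
  have hfy : ∀ (f : StrongDual ℝ (Fin d → ℝ)) (y : Fin d → ℝ),
      f y = (fun i => f (Pi.single i 1)) ⬝ᵥ y := by
    intro f y
    have : y = ∑ i, y i • (Pi.single i (1 : ℝ) : Fin d → ℝ) := by
      funext k
      simp [Finset.sum_apply, Pi.single_apply]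
    conv_lhs => rw [this, map_sum]
    simp only [map_smul, smul_eq_mul, dotProduct]
    exact Finset.sum_congr rfl fun i _ => mul_comm _ _
  refine ⟨V, hVmem, hPV, hVneg, hV0, ?_, ?_⟩
  · intro v hv
    have hvn : v ∉ convexHull ℝ ((V.erase v : Finset (Fin d → ℝ)) : Set (Fin d → ℝ)) := by
      intro hvh
      have h1 : v ∈ Set.extremePoints ℝ
          (convexHull ℝ ((V.erase v : Finset (Fin d → ℝ)) : Set (Fin d → ℝ))) := by
        refine ⟨hvh, ?_⟩
        intro x₁ h₁ x₂ h₂ hseg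
        have hsub : convexHull ℝ ((V.erase v : Finset (Fin d → ℝ)) : Set (Fin d → ℝ)) ⊆ P := by
          rw [hPV]
          exact convexHull_mono (by exact_mod_cast Finset.erase_subset v V)
        exact ((hVmem v).1 hv).2 (hsub h₁) (hsub h₂) hseg
      have h2 := extremePoints_convexHull_subset h1
      exact (Finset.mem_erase.1 (Finset.mem_coe.1 h2)).1 rfl
    obtain ⟨f, u, hf, hu⟩ := geometric_hahn_banach_closed_point
      (convex_convexHull ℝ ((V.erase v : Finset (Fin d → ℝ)) : Set (Fin d → ℝ)))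
      (Set.Finite.isCompact_convexHull ℝ (V.erase v).finite_toSet).isClosed hvn
    refine ⟨fun i => f (Pi.single i 1), ?_⟩
    intro x hx hxv
    rw [← hfy, ← hfy]
    exact (hf x (subset_convexHull ℝ _ (Finset.mem_coe.2
      (Finset.mem_erase.2 ⟨hxv, hx⟩)))).trans hu
  · intro l hl v hv
    by_contra hcon
    push Not at hcon
    obtain ⟨x₀, hx₀⟩ := hint
    rw [mem_interior] at hx₀
    obtain ⟨t, htP, hto, hxt⟩ := hx₀
    have hconst : ∀ x ∈ P, l ⬝ᵥ x = l ⬝ᵥ v := by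
      intro x hx
      rw [hPV] at hx
      obtain ⟨μ, h0, h1, h2⟩ := dot_hull hx
      rw [h2 l, Finset.sum_congr rfl (fun y hy => by rw [hcon y hy]), ← Finset.sum_mul, h1,
        one_mul]
    have hev : ∀ᶠ r : ℝ in nhds 0, x₀ + r • l ∈ t := by
      have hc : ContinuousAt (fun r : ℝ => x₀ + r • l) 0 := by fun_prop
      apply hc
      simp only [zero_smul, add_zero]
      exact hto.mem_nhds hxt
    have hev2 := (hev.filter_mono (nhdsWithin_le_nhds (s := Set.Ioi 0))).and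
      (self_mem_nhdsWithin (s := Set.Ioi (0:ℝ)))
    obtain ⟨r, hr1, hr2⟩ := hev2.exists
    have h1 := hconst _ (htP hr1)
    have h2 := hconst _ (htP hxt)
    rw [dotProduct_add, dotProduct_smul, smul_eq_mul, h2] at h1
    have h3 := self_dot_pos hl
    have h4 : 0 < r * (l ⬝ᵥ l) := mul_pos hr2 h3
    linarith

/-- the polar body is a polytope -/
lemma polar_poly {P : Set (Fin d → ℝ)} {V : Finset (Fin d → ℝ)}
    (hPV : P = convexHull ℝ (V : Set (Fin d → ℝ))) (hint : (interior P).Nonempty)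
    (hsym : ∀ x ∈ P, -x ∈ P) :
    (∃ S : Finset (Fin d → ℝ), Pol P = convexHull ℝ (S : Set (Fin d → ℝ))) ∧
      (interior (Pol P)).Nonempty ∧ (∀ x ∈ Pol P, -x ∈ Pol P) := by
  classical
  have hconv : Convex ℝ P := by
    rw [hPV]; exact convex_convexHull ℝ _
  have hcomp : IsCompact P := by
    rw [hPV]
    exact Set.Finite.isCompact_convexHull ℝ V.finite_toSet
  have hVP : ∀ x ∈ V, x ∈ P := fun x hx => by
    rw [hPV]; exact subset_convexHull ℝ _ hx
  have hQ : Pol P = {y | ∀ v ∈ V, v ⬝ᵥ y ≤ 1} := by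
    ext y
    constructor
    · intro h v hv
      exact h v (hVP v hv)
    · intro h x hx
      show x ⬝ᵥ y ≤ 1
      rw [hPV] at hx
      rw [dotProduct_comm]
      refine dot_le_hull hx y 1 fun v hv => ?_
      rw [dotProduct_comm]
      exact h v hv
  have hQconv : Convex ℝ (Pol P) := by
    rw [hQ]
    intro x hx y hy a b ha hb hab v hv
    rw [dotProduct_add, dotProduct_smul, dotProduct_smul, smul_eq_mul, smul_eq_mul]
    have h1 := mul_le_mul_of_nonneg_left (hx v hv) ha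
    have h2 := mul_le_mul_of_nonneg_left (hy v hv) hb
    linarith
  have hQclosed : IsClosed (Pol P) := by
    rw [hQ]
    have : {y : Fin d → ℝ | ∀ v ∈ V, v ⬝ᵥ y ≤ 1} = ⋂ v ∈ V, {y | v ⬝ᵥ y ≤ 1} := by
      ext y; simp
    rw [this]
    refine isClosed_biInter fun v _ => ?_
    refine isClosed_le ?_ continuous_const
    exact Continuous.dotProduct continuous_const continuous_id
  -- zero is an interior point of P
  obtain ⟨x₀, hx₀⟩ := hint
  have hx₀P := interior_subset hx₀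
  obtain ⟨r, hr, hball⟩ := Metric.isOpen_iff.1 isOpen_interior x₀ hx₀
  have hballP : ∀ z : Fin d → ℝ, ‖z‖ < r → (1 / 2 : ℝ) • z ∈ P := by
    intro z hz
    have h1 : x₀ + z ∈ P := interior_subset (hball (by
      rw [Metric.mem_ball, dist_eq_norm, add_sub_cancel_left]; exact hz))
    have h2 := hsym x₀ hx₀P
    have h3 := hconv h1 h2 (show (0:ℝ) ≤ 1 / 2 by norm_num) (show (0:ℝ) ≤ 1 / 2 by norm_num)
      (by norm_num)
    have h4 : (1 / 2 : ℝ) • (x₀ + z) + (1 / 2 : ℝ) • (-x₀) = (1 / 2 : ℝ) • z := by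
      rw [smul_add, smul_neg]; abel
    rwa [h4] at h3
  have hQbdd : Bornology.IsBounded (Pol P) := by
    rw [Metric.isBounded_iff_subset_closedBall (0 : Fin d → ℝ)]
    refine ⟨4 / r, ?_⟩
    intro y hy
    rw [mem_closedBall_zero_iff, pi_norm_le_iff_of_nonneg (by positivity)]
    intro i
    have h1 : ∀ s : ℝ, |s| < r → (1 / 2) * (s * y i) ≤ 1 := by
      intro s hs
      have h2 := hballP (Pi.single i s) (by
        rw [Pi.norm_single]; exact hs)
      have h3 : ((1 / 2 : ℝ) • (Pi.single i s : Fin d → ℝ)) ⬝ᵥ y ≤ 1 := hy _ h2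
      rw [smul_dotProduct, single_dotProduct, smul_eq_mul] at h3
      exact h3
    have h2 := h1 (r / 2) (by rw [abs_of_pos (by positivity)]; linarith)
    have h3 := h1 (-(r / 2)) (by rw [abs_neg, abs_of_pos (by positivity)]; linarith)
    rw [Real.norm_eq_abs, abs_le]
    constructor
    · rw [neg_le, le_div_iff₀ hr]
      nlinarith
    · rw [le_div_iff₀ hr]
      nlinarith
  have hQcomp : IsCompact (Pol P) := Metric.isCompact_of_isClosed_isBounded hQclosed hQbdd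
  -- finitely many extreme points
  have hfin : (Set.extremePoints ℝ (Pol P)).Finite := by
    have hinj : Set.InjOn (fun y => V.filter (fun v => v ⬝ᵥ y = 1))
        (Set.extremePoints ℝ (Pol P)) := by
      intro y hy y' hy' hyy
      have hyy' : V.filter (fun v => v ⬝ᵥ y = 1) = V.filter (fun v => v ⬝ᵥ y' = 1) := hyy
      have hT : ∀ v ∈ V, v ⬝ᵥ y = 1 → v ⬝ᵥ y' = 1 := by
        intro v hv h
        have : v ∈ V.filter (fun v => v ⬝ᵥ y = 1) := Finset.mem_filter.2 ⟨hv, h⟩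
        rw [hyy'] at this
        exact (Finset.mem_filter.1 this).2
      have hyQ : ∀ v ∈ V, v ⬝ᵥ y ≤ 1 := by
        have := hy.1; rw [hQ] at this; exact this
      obtain ⟨ε, hε, h⟩ := small (V.filter (fun v => v ⬝ᵥ y ≠ 1)) (fun v => 1 - v ⬝ᵥ y)
        (fun v => |v ⬝ᵥ (y - y')|) (by
          intro v hv
          obtain ⟨h1, h2⟩ := Finset.mem_filter.1 hv
          have := lt_of_le_of_ne (hyQ v h1) h2
          linarith)
      have hmove : ∀ t : ℝ, |t| ≤ ε → y + t • (y - y') ∈ Pol P := by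
        intro t ht
        rw [hQ]
        intro v hv
        rw [dotProduct_add, dotProduct_smul, smul_eq_mul]
        by_cases h1 : v ⬝ᵥ y = 1
        · rw [dotProduct_sub, h1, hT v hv h1]; simp
        · have h2 := h v (Finset.mem_filter.2 ⟨hv, h1⟩)
          have h4 : t * (v ⬝ᵥ (y - y')) ≤ ε * |v ⬝ᵥ (y - y')| := by
            calc t * (v ⬝ᵥ (y - y')) ≤ |t * (v ⬝ᵥ (y - y'))| := le_abs_self _
              _ = |t| * |v ⬝ᵥ (y - y')| := abs_mul _ _
              _ ≤ _ := mul_le_mul_of_nonneg_right ht (abs_nonneg _)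
          linarith
      have h1 := hmove ε (by rw [abs_of_pos hε])
      have h2 := hmove (-ε) (by rw [abs_neg, abs_of_pos hε])
      have h3 := hy.2 h1 h2 ⟨1 / 2, 1 / 2, by norm_num, by norm_num, by norm_num, by
        rw [← smul_add]
        have : y + ε • (y - y') + (y + -ε • (y - y')) = (2 : ℝ) • y := by
          rw [neg_smul, two_smul]; abel
        rw [this, smul_smul]; norm_num⟩
      have h4 : ε • (y - y') = 0 := by
        have := congrArg (fun z => z - y) h3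
        simpa using this
      exact sub_eq_zero.1 ((smul_eq_zero.1 h4).resolve_left hε.ne')
    refine Set.Finite.of_finite_image ?_ hinj
    refine Set.Finite.subset (V.powerset.finite_toSet) ?_
    rintro _ ⟨y, _, rfl⟩
    rw [Finset.mem_coe, Finset.mem_powerset]
    exact Finset.filter_subset _ _
  refine ⟨⟨hfin.toFinset, ?_⟩, ?_, ?_⟩
  · have h1 := closure_convexHull_extremePoints hQcomp hQconv
    have h2 : IsClosed (convexHull ℝ (hfin.toFinset : Set (Fin d → ℝ))) :=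
      (Set.Finite.isCompact_convexHull ℝ hfin.toFinset.finite_toSet).isClosed
    rw [Set.Finite.coe_toFinset] at h2 ⊢
    rw [h2.closure_eq] at h1
    exact h1.symm
  · -- interior of the polar
    obtain ⟨C, hC, hPC⟩ := hcomp.isBounded.exists_pos_norm_le
    refine ⟨0, ?_⟩
    rw [mem_interior_iff_mem_nhds, Metric.mem_nhds_iff]
    refine ⟨1 / (C * (d + 1)), by positivity, ?_⟩
    intro y hy x hx
    rw [mem_ball_zero_iff] at hy
    have hx' := hPC x hx
    have h1 : ∀ i, x i * y i ≤ C * (1 / (C * (d + 1))) := by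
      intro i
      have h2 : |x i| ≤ C := (norm_le_pi_norm x i).trans hx'
      have h3 : |y i| ≤ 1 / (C * (d + 1)) := (norm_le_pi_norm y i).trans hy.le
      calc x i * y i ≤ |x i * y i| := le_abs_self _
        _ = |x i| * |y i| := abs_mul _ _
        _ ≤ _ := mul_le_mul h2 h3 (abs_nonneg _) hC.le
    calc ∑ i, x i * y i ≤ ∑ i : Fin d, C * (1 / (C * (d + 1))) := Finset.sum_le_sum fun i _ => h1 i
      _ = (d : ℝ) * (1 / (d + 1)) := by
          rw [Finset.sum_const, Finset.card_univ, Fintype.card_fin, nsmul_eq_mul]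
          field_simp
      _ ≤ 1 := by
          rw [mul_one_div, div_le_one (by positivity)]
          linarith
  · intro y hy x hx
    have h1 := hy (-x) (hsym x hx)
    have h2 : ∑ i, (-x) i * y i = ∑ i, x i * (-y) i :=
      Finset.sum_congr rfl fun i _ => by simp
    rw [← h2]
    exact h1

lemma ex_range' (T : Finset (Fin d → ℝ)) (hT : T.Nonempty) (n : ℕ) (hc : T.card ≤ n) :
    ∃ v : Fin n → Fin d → ℝ, Set.range v = (T : Set (Fin d → ℝ)) := by
  classical
  have hc' : Fintype.card T ≤ Fintype.card (Fin n) := by simpa using hc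
  obtain ⟨f⟩ := Function.Embedding.nonempty_of_card_le hc'
  obtain ⟨t, ht⟩ := hT
  have : Nonempty T := ⟨⟨t, ht⟩⟩
  refine ⟨fun i => (Function.invFun (f : T → Fin n) i).1, ?_⟩
  ext x
  constructor
  · rintro ⟨i, rfl⟩
    exact (Function.invFun (f : T → Fin n) i).2
  · intro hx
    obtain ⟨i, hi⟩ := Function.invFun_surjective f.injective ⟨x, hx⟩
    exact ⟨i, by show (Function.invFun (f : T → Fin n) i).1 = x; rw [hi]⟩

/-- counting faces by their sets of vertices / facets -/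
lemma count_img {𝓕 : Set (Set (Fin d → ℝ))} (hfin : 𝓕.Finite)
    (X : Finset (Finset (Fin d → ℝ))) (τ : Set (Fin d → ℝ) → Finset (Fin d → ℝ))
    (h : ∀ s ∈ X, ∃ F ∈ 𝓕, τ F = s) : X.card ≤ 𝓕.ncard := by
  classical
  have h1 : (X : Set (Finset (Fin d → ℝ))) ⊆ τ '' 𝓕 := by
    intro s hs
    obtain ⟨F, hF, h⟩ := h s hs
    exact ⟨F, hF, h⟩
  calc X.card = (X : Set (Finset (Fin d → ℝ))).ncard := (Set.ncard_coe_finset X).symm
    _ ≤ (τ '' 𝓕).ncard := Set.ncard_le_ncard h1 (hfin.image _)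
    _ ≤ 𝓕.ncard := Set.ncard_image_le hfin

/-- Dimension at most four: at most `3 ^ d` nonempty faces force at most `2 (d + 2)` vertices, or
`d + 2` slabs. -/
theorem many (hd1 : 1 ≤ d) (hd : d ≤ 4) {P : Set (Fin d → ℝ)}
    (hP : ∃ s : Finset (Fin d → ℝ), P = convexHull ℝ (s : Set (Fin d → ℝ)))
    (hint : (interior P).Nonempty) (hsym : ∀ x ∈ P, -x ∈ P)
    (hfin : (Fc P).Finite) (hN : (Fc P).ncard ≤ 3 ^ d) :
    (Set.extremePoints ℝ P).ncard ≤ 2 * d + 4 ∨
      ∃ w : Fin (d + 2) → Fin d → ℝ, P = {x | ∀ i, |w i ⬝ᵥ x| ≤ 1} := by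
  classical
  obtain ⟨S, hS⟩ := hP
  obtain ⟨V, hVmem, hPV, hVneg, hV0, hVE, hVF⟩ := data hd1 S hS hint hsym
  obtain ⟨⟨S', hS'⟩, hint', hsym'⟩ := polar_poly hPV hint hsym
  obtain ⟨W, hWmem, hQW, hWneg, hW0, hWE, hWF⟩ := data hd1 S' hS' hint' hsym'
  have hconv : Convex ℝ P := by
    rw [hPV]; exact convex_convexHull ℝ _
  have hcl : IsClosed P := by
    rw [hPV]
    exact (Set.Finite.isCompact_convexHull ℝ V.finite_toSet).isClosed
  have h0P : (0 : Fin d → ℝ) ∈ P := by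
    obtain ⟨x₀, hx₀⟩ := hint
    have hx₀P := interior_subset hx₀
    have h3 := hconv hx₀P (hsym x₀ hx₀P) (show (0:ℝ) ≤ 1 / 2 by norm_num)
      (show (0:ℝ) ≤ 1 / 2 by norm_num) (by norm_num)
    have h4 : (1 / 2 : ℝ) • x₀ + (1 / 2 : ℝ) • (-x₀) = 0 := by
      rw [smul_neg]; abel
    rwa [h4] at h3
  have hPW : P = {x | ∀ w ∈ W, w ⬝ᵥ x ≤ 1} := by
    rw [← bipolar hconv hcl h0P]
    ext x
    constructor
    · intro h w hw
      refine h w ?_
      rw [hQW]
      exact subset_convexHull ℝ _ hw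
    · intro h y hy
      show y ⬝ᵥ x ≤ 1
      rw [hQW] at hy
      rw [dotProduct_comm]
      refine dot_le_hull hy x 1 fun v hv => ?_
      rw [dotProduct_comm]
      exact h v hv
  by_contra hcon
  push Not at hcon
  obtain ⟨hc1, hc2⟩ := hcon
  -- at least 2 d + 6 vertices
  have hVc : 2 * d + 6 ≤ V.card := by
    have h1 : (Set.extremePoints ℝ P).ncard = V.card := by
      have : Set.extremePoints ℝ P = (V : Set (Fin d → ℝ)) := by
        ext x; exact (hVmem x).symm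
      rw [this, Set.ncard_coe_finset]
    obtain ⟨T, hTc, _⟩ := half_sys V hVneg hV0
    omega
  -- at least 2 d + 6 facets
  have hWc : 2 * d + 6 ≤ W.card := by
    obtain ⟨T, hTc, hTm⟩ := half_sys W hWneg hW0
    by_contra hlt
    have hTc2 : T.card ≤ d + 2 := by omega
    have hTne : T.Nonempty := by
      rw [Finset.nonempty_iff_ne_empty]
      intro hT0
      have hV1 : W = ∅ := by
        rw [hT0, Finset.card_empty, mul_zero] at hTc
        exact Finset.card_eq_zero.1 hTc.symm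
      rw [hV1] at hQW
      simp only [Finset.coe_empty, convexHull_empty] at hQW
      rw [hQW] at hint'
      simp at hint'
    obtain ⟨w, hw⟩ := ex_range' T hTne (d + 2) hTc2
    apply hc2 w
    rw [hPW]
    ext x
    constructor
    · intro h i
      have hiT : w i ∈ T := by
        rw [← Finset.mem_coe, ← hw]; exact ⟨i, rfl⟩
      have h1 := h (w i) ((hTm _).2 (Or.inl hiT))
      have h2 := h (-w i) ((hTm _).2 (Or.inr (by rw [neg_neg]; exact hiT)))
      rw [neg_dotProduct] at h2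
      exact abs_le.2 ⟨by linarith, h1⟩
    · intro h u hu
      rcases (hTm u).1 hu with h1 | h1
      · rw [← Finset.mem_coe, ← hw] at h1
        obtain ⟨i, rfl⟩ := h1
        exact (abs_le.1 (h i)).2
      · rw [← Finset.mem_coe, ← hw] at h1
        obtain ⟨i, hi⟩ := h1
        have h2 := (abs_le.1 (h i)).1
        have h3 : w i ⬝ᵥ x = -(u ⬝ᵥ x) := by
          have : w i = -u := hi
          rw [this, neg_dotProduct]
        linarith
  obtain ⟨X, hX, hXc⟩ := card_union hVE hVF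
  obtain ⟨Y, hY, hYc⟩ := card_union hWE hWF
  have hfV : ∀ s ∈ X, ∃ F ∈ Fc P, TV V F = s ∧ d ≤ (TW W F).card + 1 := by
    intro s hs
    rcases hX s hs with h | h
    · exact face_V hPV hPW le_rfl (by norm_num) h
    · exact face_V hPV hPW (by norm_num) le_rfl h
  have hfW : ∀ s ∈ Y, ∃ F ∈ Fc P, TW W F = s ∧ s.card ≤ 2 := by
    intro s hs
    rcases hY s hs with h | h
    · obtain ⟨F, h1, h2⟩ := face_W hPW hWneg (by omega) h
      exact ⟨F, h1, h2, by rw [(mem_XX.1 h).1.2]; norm_num⟩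
    · obtain ⟨F, h1, h2⟩ := face_W hPW hWneg (by omega) h
      exact ⟨F, h1, h2, by rw [(mem_XX.1 h).1.2]⟩
  rcases Nat.lt_or_ge d 4 with hd4 | hd4
  · have h1 := count_img hfin X (TV V) (fun s hs => by
      obtain ⟨F, h1, h2, _⟩ := hfV s hs
      exact ⟨F, h1, h2⟩)
    have h2 : (d + 2) * (2 * d + 6) ≤ (d + 2) * V.card := Nat.mul_le_mul_left _ hVc
    interval_cases d <;> omega
  · have hd' : d = 4 := le_antisymm hd hd4
    set 𝓐 : Set (Set (Fin d → ℝ)) := {F | F ∈ Fc P ∧ 3 ≤ (TW W F).card} with h𝓐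
    set 𝓑 : Set (Set (Fin d → ℝ)) := {F | F ∈ Fc P ∧ (TW W F).card ≤ 2} with h𝓑
    have hA : 𝓐.Finite := hfin.subset fun F h => h.1
    have hB : 𝓑.Finite := hfin.subset fun F h => h.1
    have hdisj : Disjoint 𝓐 𝓑 := by
      rw [Set.disjoint_left]
      rintro F ⟨_, h1⟩ ⟨_, h2⟩
      omega
    have hsub : 𝓐 ∪ 𝓑 ⊆ Fc P := by
      rintro F (h | h)
      · exact h.1
      · exact h.1
    have h1 : 𝓐.ncard + 𝓑.ncard ≤ (Fc P).ncard := by
      rw [← Set.ncard_union_eq hdisj hA hB]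
      exact Set.ncard_le_ncard hsub hfin
    have h2 := count_img hA X (TV V) (fun s hs => by
      obtain ⟨F, h1, h2, h3⟩ := hfV s hs
      exact ⟨F, ⟨h1, by omega⟩, h2⟩)
    have h3 := count_img hB Y (TW W) (fun s hs => by
      obtain ⟨F, h1, h2, h3⟩ := hfW s hs
      exact ⟨F, ⟨h1, by rw [h2]; exact h3⟩, h2⟩)
    have h4 : (d + 2) * (2 * d + 6) ≤ (d + 2) * V.card := Nat.mul_le_mul_left _ hVc
    have h5 : (d + 2) * (2 * d + 6) ≤ (d + 2) * W.card := Nat.mul_le_mul_left _ hWc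
    have h6 : (d + 2) * (2 * d + 6) = 84 := by rw [hd']
    have h7 : 3 ^ d = 81 := by rw [hd']; norm_num
    omega

end Pool.Agent.KEQ.D4
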