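import Pool.Agent.KEQ.DefsG

/-!
# Equality in the 3^d conjecture: cells and faces, facet version
-/

set_option autoImplicit false

open scoped BigOperators Classical

namespace Pool.Agent.KEQ

open Pool.Agent.GRD Pool.Agent.K3E Module

private lemma sgsq {c : ZMod 3} (h : c ≠ 0) : sg c * sg c = 1 := by
  rcases sg_cases h with h | h <;> rw [h] <;> norm_num

/-- FV1: cells and faces, facet version -/
theorem count_facet {d m : ℕ} (w : Fin m → Fin d → ℝ) {P : Set (Fin d → ℝ)}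
    (hP : P = {x | ∀ i, |w i ⬝ᵥ x| ≤ 1}) (hfin : (Fc P).Finite) :
    NL (LinearMap.range (TL w)) ≤ (Fc P).ncard := by
  set R : Set (Fin m → ZMod 3) := {s | ∃ z : Fin d → ℝ, Cell s (TL w z)} with hR
  have hNL : NL (LinearMap.range (TL w)) = R.ncard := by
    unfold NL
    rw [← Set.ncard_coe_finset]
    congr 1
    ext s
    rw [Finset.coe_filter]
    simp only [Finset.mem_univ, true_and, Set.mem_ofPred_eq, hR]
    constructor
    · rintro ⟨y, ⟨z, rfl⟩, hc⟩
      exact ⟨z, hc⟩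
    · rintro ⟨z, hc⟩
      exact ⟨_, ⟨z, rfl⟩, hc⟩
  rw [hNL]
  -- a witness of a cell
  have hwit : ∀ s ∈ R, ∃ z : Fin d → ℝ, (∀ i, s i = 0 → |w i ⬝ᵥ z| < 1) ∧
      (∀ i, s i ≠ 0 → w i ⬝ᵥ z = sg (s i)) := by
    rintro s ⟨z, hz⟩
    refine ⟨z, fun i hi => ?_, fun i hi => ?_⟩
    · have := (hz i).1 hi
      rwa [TL_apply] at this
    · have := (hz i).2 hi
      rwa [TL_apply] at this
  have hmem : ∀ (s : Fin m → ZMod 3) (z : Fin d → ℝ),
      (∀ i, s i = 0 → |w i ⬝ᵥ z| < 1) → (∀ i, s i ≠ 0 → w i ⬝ᵥ z = sg (s i)) →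
      z ∈ {x | x ∈ P ∧ ∀ i, s i ≠ 0 → w i ⬝ᵥ x = sg (s i)} := by
    intro s z h1 h2
    refine ⟨?_, fun i hi => h2 i hi⟩
    rw [hP]; intro i
    by_cases h : s i = 0
    · exact (h1 i h).le
    · rw [h2 i h, abs_sg h]
  refine Set.ncard_le_ncard_of_injOn
    (fun s => {x | x ∈ P ∧ ∀ i, s i ≠ 0 → w i ⬝ᵥ x = sg (s i)}) ?_ ?_ hfin
  · intro s hs
    obtain ⟨z, h1, h2⟩ := hwit s hs
    have hzF := hmem s z h1 h2
    have hzP : z ∈ P := hzF.1
    refine ⟨fun _ => ?_, ⟨z, hzF⟩⟩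
    -- exposing functional
    set l : StrongDual ℝ (Fin d → ℝ) := ∑ i, (sg (s i)) • DD (w i) with hl
    have hlx : ∀ x, l x = ∑ i, sg (s i) * (w i ⬝ᵥ x) := by
      intro x
      simp [hl, DD_apply]
    have hbound : ∀ x ∈ P, ∀ i, sg (s i) * (w i ⬝ᵥ x) ≤ sg (s i) * sg (s i) := by
      intro x hx i
      by_cases h : s i = 0
      · simp [h, sg]
      · rw [sgsq h]
        rw [hP] at hx
        have h1 := hx i
        calc sg (s i) * (w i ⬝ᵥ x) ≤ |sg (s i) * (w i ⬝ᵥ x)| := le_abs_self _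
          _ = |w i ⬝ᵥ x| := by rw [abs_mul, abs_sg h, one_mul]
          _ ≤ 1 := h1
    have hval : ∀ x, (x ∈ P ∧ ∀ i, s i ≠ 0 → w i ⬝ᵥ x = sg (s i)) →
        l x = ∑ i, sg (s i) * sg (s i) := by
      intro x hx
      rw [hlx]
      refine Finset.sum_congr rfl fun i _ => ?_
      by_cases h : s i = 0
      · simp [h, sg]
      · rw [hx.2 i h]
    refine ⟨l, ?_⟩
    ext x
    constructor
    · intro hx
      refine ⟨hx.1, fun u hu => ?_⟩
      rw [hval x hx, hlx]
      exact Finset.sum_le_sum fun i _ => hbound u hu i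
    · rintro ⟨hxP, hmax⟩
      refine ⟨hxP, fun i hi => ?_⟩
      have h1 := hmax z hzP
      rw [hval z hzF, hlx x] at h1
      have h2 : ∀ j ∈ Finset.univ, sg (s j) * (w j ⬝ᵥ x) = sg (s j) * sg (s j) := by
        by_contra hcon
        simp only [Finset.mem_univ, true_implies, not_forall] at hcon
        obtain ⟨j, hj⟩ := hcon
        have : ∑ i, sg (s i) * (w i ⬝ᵥ x) < ∑ i, sg (s i) * sg (s i) :=
          Finset.sum_lt_sum (fun i _ => hbound x hxP i)
            ⟨j, Finset.mem_univ _, lt_of_le_of_ne (hbound x hxP j) hj⟩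
        linarith
      have h3 := h2 i (Finset.mem_univ _)
      have h4 : sg (s i) ≠ 0 := by
        intro h0
        have := sgsq hi
        rw [h0] at this; simp at this
      exact mul_left_cancel₀ h4 h3
  · intro s hs s' hs' hFF
    obtain ⟨z, h1, h2⟩ := hwit s hs
    obtain ⟨z', h1', h2'⟩ := hwit s' hs'
    have hzF := hmem s z h1 h2
    have hzF' := hmem s' z' h1' h2'
    have hFF' : {x | x ∈ P ∧ ∀ i, s i ≠ 0 → w i ⬝ᵥ x = sg (s i)} =
        {x | x ∈ P ∧ ∀ i, s' i ≠ 0 → w i ⬝ᵥ x = sg (s' i)} := hFF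
    rw [hFF'] at hzF
    rw [← hFF'] at hzF'
    funext i
    by_cases h : s i = 0
    · by_cases h' : s' i = 0
      · rw [h, h']
      · exfalso
        have e1 := hzF.2 i h'
        have e2 := h1 i h
        rw [e1, abs_sg h'] at e2
        exact lt_irrefl _ e2
    · have e1 := hzF'.2 i h
      by_cases h' : s' i = 0
      · exfalso
        have e2 := h1' i h'
        rw [e1, abs_sg h] at e2
        exact lt_irrefl _ e2
      · rw [h2' i h'] at e1
        exact sg_inj e1.symm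

end Pool.Agent.KEQ
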