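import Pool.Agent.KEQ.DefsG

/-!
# Equality in the 3^d conjecture: cells and faces, vertex version
-/

set_option autoImplicit false

open scoped BigOperators Classical

namespace Pool.Agent.KEQ

open Pool.Agent.GRD Pool.Agent.K3E Module

/-- FV2: cells and faces, vertex version -/
theorem count_vertex {d m : ℕ} (v : Fin (m + 1) → Fin d → ℝ) {P : Set (Fin d → ℝ)}
    (hP : P = convexHull ℝ (Set.range v ∪ Set.range (fun i => -v i))) (hfin : (Fc P).Finite) :
    NL (LinearMap.range (TL v)) ≤ (Fc P).ncard := by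
  have hvP : ∀ i, v i ∈ P := fun i => by
    rw [hP]; exact subset_convexHull ℝ _ (Or.inl ⟨i, rfl⟩)
  have hvP' : ∀ i, -v i ∈ P := fun i => by
    rw [hP]; exact subset_convexHull ℝ _ (Or.inr ⟨i, rfl⟩)
  have hle := vertex_le v hP
  set R : Set (Fin (m + 1) → ZMod 3) := {s | ∃ z : Fin d → ℝ, Cell s (TL v z)} with hR
  have hNL : NL (LinearMap.range (TL v)) = R.ncard := by
    unfold NL
    rw [← Set.ncard_coe_finset]
    congr 1
    ext s
    rw [Finset.coe_filter]
    simp only [Finset.mem_univ, true_and, Set.mem_ofPred_eq, hR]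
    constructor
    · rintro ⟨y, ⟨z, rfl⟩, hc⟩
      exact ⟨z, hc⟩
    · rintro ⟨z, hc⟩
      exact ⟨_, ⟨z, rfl⟩, hc⟩
  rw [hNL]
  have hch : ∀ s : Fin (m + 1) → ZMod 3, ∃ z : Fin d → ℝ, s ∈ R → Cell s (TL v z) := by
    intro s
    by_cases h : s ∈ R
    · obtain ⟨z, hz⟩ := h
      exact ⟨z, fun _ => hz⟩
    · exact ⟨0, fun h' => absurd h' h⟩
  choose Z hZ using hch
  have h1' : ∀ s, s ∈ R → ∀ i, s i = 0 → |v i ⬝ᵥ Z s| < 1 := by
    intro s hs i hi
    have := (hZ s hs i).1 hi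
    rwa [TL_apply] at this
  have h2' : ∀ s, s ∈ R → ∀ i, s i ≠ 0 → v i ⬝ᵥ Z s = sg (s i) := by
    intro s hs i hi
    have := (hZ s hs i).2 hi
    rwa [TL_apply] at this
  set Z' : (Fin (m + 1) → ZMod 3) → Fin d → ℝ := fun s => if s = 0 then 0 else Z s with hZ'
  have hFdef : ∀ s, s ∈ R → s ≠ 0 → ∀ x ∈ P,
      ((∀ u ∈ P, Z' s ⬝ᵥ u ≤ Z' s ⬝ᵥ x) ↔ Z s ⬝ᵥ x = 1) := by
    intro s hs hs0 x hx
    have hZs : Z' s = Z s := by simp [hZ', hs0]
    rw [hZs]
    have hall : ∀ i, |v i ⬝ᵥ Z s| ≤ 1 := by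
      intro i
      have := (hZ s hs).abs_le i
      rwa [TL_apply] at this
    have hbd := hle (Z s) 1 hall
    obtain ⟨i, hi⟩ : ∃ i, s i ≠ 0 := by
      by_contra hcon
      simp only [not_exists, not_not] at hcon
      exact hs0 (funext hcon)
    constructor
    · intro hmax
      apply le_antisymm (hbd x hx)
      rcases sg_cases hi with h | h
      · have := hmax _ (hvP i)
        rw [dotProduct_comm, h2' s hs i hi, h] at this
        exact this
      · have := hmax _ (hvP' i)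
        rw [dotProduct_neg, dotProduct_comm, h2' s hs i hi, h] at this
        linarith
    · intro hx1 u hu
      rw [hx1]; exact hbd u hu
  refine Set.ncard_le_ncard_of_injOn
    (fun s => {x | x ∈ P ∧ ∀ u ∈ P, Z' s ⬝ᵥ u ≤ Z' s ⬝ᵥ x}) ?_ ?_ hfin
  · intro s hs
    refine ⟨fun _ => ⟨DD (Z' s), by simp only [DD_apply]⟩, ?_⟩
    by_cases hs0 : s = 0
    · refine ⟨v 0, hvP 0, fun u _ => ?_⟩
      simp [hZ', hs0]
    · obtain ⟨i, hi⟩ : ∃ i, s i ≠ 0 := by
        by_contra hcon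
        simp only [not_exists, not_not] at hcon
        exact hs0 (funext hcon)
      rcases sg_cases hi with h | h
      · refine ⟨v i, hvP i, (hFdef s hs hs0 _ (hvP i)).2 ?_⟩
        rw [dotProduct_comm, h2' s hs i hi, h]
      · refine ⟨-v i, hvP' i, (hFdef s hs hs0 _ (hvP' i)).2 ?_⟩
        rw [dotProduct_neg, dotProduct_comm, h2' s hs i hi, h]; norm_num
  · intro s hs s' hs' hFF
    have hFF' : {x | x ∈ P ∧ ∀ u ∈ P, Z' s ⬝ᵥ u ≤ Z' s ⬝ᵥ x} =
        {x | x ∈ P ∧ ∀ u ∈ P, Z' s' ⬝ᵥ u ≤ Z' s' ⬝ᵥ x} := hFF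
    have hm : ∀ s, s ∈ R → s ≠ 0 → ∀ i,
        ((v i ∈ {x | x ∈ P ∧ ∀ u ∈ P, Z' s ⬝ᵥ u ≤ Z' s ⬝ᵥ x}) ↔ sg (s i) = 1) ∧
        ((-v i ∈ {x | x ∈ P ∧ ∀ u ∈ P, Z' s ⬝ᵥ u ≤ Z' s ⬝ᵥ x}) ↔ sg (s i) = -1) := by
      intro s hs hs0 i
      have e0 : ∀ w ∈ P, (w ∈ {x | x ∈ P ∧ ∀ u ∈ P, Z' s ⬝ᵥ u ≤ Z' s ⬝ᵥ x}) ↔
          Z s ⬝ᵥ w = 1 := by
        intro w hw
        rw [← hFdef s hs hs0 w hw]
        exact ⟨fun h => h.2, fun h => ⟨hw, h⟩⟩
      rw [e0 _ (hvP i), e0 _ (hvP' i), dotProduct_neg, dotProduct_comm]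
      by_cases h : s i = 0
      · have h3 := abs_lt.1 (h1' s hs i h)
        have h4 : sg (s i) = 0 := by simp [h, sg]
        rw [h4]
        constructor
        · constructor
          · intro h5; rw [h5] at h3; linarith [h3.2]
          · intro h5; norm_num at h5
        · constructor
          · intro h5; linarith [h3.1]
          · intro h5; norm_num at h5
      · rw [h2' s hs i h]
        constructor
        · exact Iff.rfl
        · constructor
          · intro h5; linarith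
          · intro h5; linarith
    have hz0 : ∀ s, s = 0 → {x | x ∈ P ∧ ∀ u ∈ P, Z' s ⬝ᵥ u ≤ Z' s ⬝ᵥ x} = P := by
      intro s hs0
      ext x
      constructor
      · intro h; exact h.1
      · intro h; exact ⟨h, fun u _ => by simp [hZ', hs0]⟩
    have hnP : ∀ s, s ∈ R → s ≠ 0 →
        {x | x ∈ P ∧ ∀ u ∈ P, Z' s ⬝ᵥ u ≤ Z' s ⬝ᵥ x} ≠ P := by
      intro s hs hs0 heq
      have h1 := (hm s hs hs0 0).1.1 (by rw [heq]; exact hvP 0)
      have h2 := (hm s hs hs0 0).2.1 (by rw [heq]; exact hvP' 0)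
      rw [h1] at h2; norm_num at h2
    by_cases h0 : s = 0
    · by_cases h0' : s' = 0
      · rw [h0, h0']
      · exfalso
        apply hnP s' hs' h0'
        rw [← hFF', hz0 s h0]
    · by_cases h0' : s' = 0
      · exfalso
        apply hnP s hs h0
        rw [hFF', hz0 s' h0']
      · funext i
        obtain ⟨p1, p2⟩ := hm s hs h0 i
        obtain ⟨q1, q2⟩ := hm s' hs' h0' i
        rw [hFF'] at p1 p2
        have r1 : sg (s i) = 1 ↔ sg (s' i) = 1 := p1.symm.trans q1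
        have r2 : sg (s i) = -1 ↔ sg (s' i) = -1 := p2.symm.trans q2
        have tri : ∀ c : ZMod 3, sg c = 0 ∨ sg c = 1 ∨ sg c = -1 := by
          intro c
          unfold sg
          split_ifs <;> simp
        apply sg_inj
        rcases tri (s i) with h | h | h
        · rcases tri (s' i) with h' | h' | h'
          · rw [h, h']
          · rw [r1.2 h', h']
          · rw [r2.2 h', h']
        · rw [h, r1.1 h]
        · rw [h, r2.1 h]

end Pool.Agent.KEQ
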