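import Pool.Agent.K2L.Final
import Pool.Agent.KEQ.D4
import Pool.Agent.KEQ.FV1
import Pool.Agent.KEQ.FV2

/-!
# Kalai's inequality in dimension at most four
-/

set_option autoImplicit false

open scoped BigOperators

open Pool.Agent.KalaiFew

namespace Pool.Agent.KEQ

open Pool.Agent.K3E Module

lemma ex_range2 {d n : ℕ} (T : Finset (Fin d → ℝ)) (hT : T.Nonempty) (hc : T.card ≤ n) :
    ∃ v : Fin n → Fin d → ℝ, Set.range v = (T : Set (Fin d → ℝ)) := by
  classical
  have hc' : Fintype.card T ≤ Fintype.card (Fin n) := by simpa using hc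
  obtain ⟨f⟩ := Function.Embedding.nonempty_of_card_le hc'
  obtain ⟨t, ht⟩ := hT
  have : Nonempty T := ⟨⟨t, ht⟩⟩
  refine ⟨fun i => (Function.invFun (f : T → Fin n) i).1, ?_⟩
  ext x
  constructor
  · rintro ⟨i, rfl⟩
    exact (Function.invFun (f : T → Fin n) i).2
  · intro hx
    obtain ⟨i, hi⟩ := Function.invFun_surjective f.injective ⟨x, hx⟩
    exact ⟨i, by show (Function.invFun (f : T → Fin n) i).1 = x; rw [hi]⟩

lemma inj_of_bounded2 {d m : ℕ} (w : Fin m → Fin d → ℝ) {P : Set (Fin d → ℝ)}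
    (hP : P = {x | ∀ i, |w i ⬝ᵥ x| ≤ 1}) (hb : Bornology.IsBounded P) :
    ∀ z, (∀ i, w i ⬝ᵥ z = 0) → z = 0 := by
  intro z hz
  by_contra hne
  have hmem : ∀ t : ℝ, t • z ∈ P := by
    intro t
    rw [hP]
    intro i
    rw [dotProduct_smul, hz i, smul_zero, abs_zero]
    exact zero_le_one
  obtain ⟨R, hR⟩ := hb.subset_closedBall (0 : Fin d → ℝ)
  have hz0 : 0 < ‖z‖ := norm_pos_iff.2 hne
  have h1 := hR (hmem ((|R| + 1) / ‖z‖))
  rw [mem_closedBall_zero_iff, norm_smul, Real.norm_eq_abs, abs_of_pos (by positivity),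
    div_mul_cancel₀ _ hz0.ne'] at h1
  linarith [le_abs_self R]

lemma ex_vertex2 {d : ℕ} (hd : 1 ≤ d) {P : Set (Fin d → ℝ)} (S : Finset (Fin d → ℝ))
    (hS : P = convexHull ℝ (S : Set (Fin d → ℝ))) (hint : (interior P).Nonempty)
    (hsym : ∀ x ∈ P, -x ∈ P) (h : (Set.extremePoints ℝ P).ncard ≤ 2 * d + 4) :
    ∃ v : Fin (d + 2) → Fin d → ℝ,
      P = convexHull ℝ (Set.range v ∪ Set.range (fun i => -v i)) ∧
      ∀ z, (∀ i, v i ⬝ᵥ z = 0) → z = 0 := by
  classical
  have hcomp : IsCompact P := by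
    rw [hS]
    exact Set.Finite.isCompact_convexHull ℝ S.finite_toSet
  have hconv : Convex ℝ P := by
    rw [hS]
    exact convex_convexHull ℝ _
  have hVS : Set.extremePoints ℝ P ⊆ (S : Set (Fin d → ℝ)) := by
    rw [hS]
    exact extremePoints_convexHull_subset
  have hVfin : (Set.extremePoints ℝ P).Finite := S.finite_toSet.subset hVS
  set V : Finset (Fin d → ℝ) := hVfin.toFinset with hV
  have hVmem : ∀ x, x ∈ V ↔ x ∈ Set.extremePoints ℝ P := fun x => hVfin.mem_toFinset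
  have hVcard : V.card ≤ 2 * d + 4 := by
    rw [Set.ncard_eq_toFinset_card _ hVfin] at h
    exact h
  -- P is the hull of V
  have hPV : P = convexHull ℝ (V : Set (Fin d → ℝ)) := by
    have h1 := closure_convexHull_extremePoints hcomp hconv
    have h2 : (V : Set (Fin d → ℝ)) = Set.extremePoints ℝ P := by
      ext x; exact hVmem x
    have h3 : IsClosed (convexHull ℝ (V : Set (Fin d → ℝ))) :=
      (Set.Finite.isCompact_convexHull ℝ V.finite_toSet).isClosed
    rw [← h2, h3.closure_eq] at h1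
    exact h1.symm
  -- V is symmetric
  have hVneg : ∀ x ∈ V, -x ∈ V := by
    intro x hx
    rw [hVmem] at hx ⊢
    refine ⟨hsym x hx.1, ?_⟩
    intro x₁ h₁ x₂ h₂ hseg
    have h₁' := hsym x₁ h₁
    have h₂' := hsym x₂ h₂
    have hseg' : x ∈ openSegment ℝ (-x₁) (-x₂) := by
      obtain ⟨s, t, hs, ht, hst, hx'⟩ := hseg
      refine ⟨s, t, hs, ht, hst, ?_⟩
      rw [smul_neg, smul_neg, ← neg_add, hx', neg_neg]
    have := hx.2 h₁' h₂' hseg'
    rw [← this, neg_neg]
  -- zero is not a vertex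
  have hV0 : (0 : Fin d → ℝ) ∉ V := by
    intro h0
    rw [hVmem] at h0
    have hP0 : P ⊆ {0} := by
      intro x hx
      have hseg : (0 : Fin d → ℝ) ∈ openSegment ℝ x (-x) :=
        ⟨1 / 2, 1 / 2, by norm_num, by norm_num, by norm_num, by simp⟩
      exact h0.2 hx (hsym x hx) hseg
    obtain ⟨x₀, hx₀⟩ := hint
    have : Nonempty (Fin d) := ⟨⟨0, hd⟩⟩
    have h1 : interior ({0} : Set (Fin d → ℝ)) = ∅ := interior_singleton _
    have h2 := interior_mono hP0 hx₀
    rw [h1] at h2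
    exact h2
  obtain ⟨T, hTc, hTm⟩ := half_sys V hVneg hV0
  have hTne : T.Nonempty := by
    rw [Finset.nonempty_iff_ne_empty]
    intro hT0
    have hV1 : V = ∅ := by
      rw [hT0, Finset.card_empty, mul_zero] at hTc
      exact Finset.card_eq_zero.1 hTc.symm
    rw [hV1] at hPV
    simp only [Finset.coe_empty, convexHull_empty] at hPV
    rw [hPV] at hint
    simp at hint
  obtain ⟨v, hv⟩ := ex_range2 (n := d + 2) T hTne (by omega)
  have hPv : P = convexHull ℝ (Set.range v ∪ Set.range (fun i => -v i)) := by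
    rw [hPV]
    congr 1
    ext x
    rw [Finset.mem_coe, hTm x]
    constructor
    · rintro (hx | hx)
      · left; rw [hv]; exact hx
      · right
        have : -x ∈ Set.range v := by rw [hv]; exact hx
        obtain ⟨i, hi⟩ := this
        exact ⟨i, by show -v i = x; rw [hi, neg_neg]⟩
    · rintro (hx | ⟨i, rfl⟩)
      · left; rw [hv] at hx; exact hx
      · right
        have : v i ∈ (T : Set (Fin d → ℝ)) := by rw [← hv]; exact ⟨i, rfl⟩
        show - -v i ∈ T
        rw [neg_neg]; exact this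
  exact ⟨v, hPv, inj_of_interior v hPv hint⟩

/-- the cells of a system of full rank with `d + 2` rows -/
theorem cells_ge {d : ℕ} (w : Fin (d + 2) → Fin d → ℝ)
    (hinj : ∀ z, (∀ i, w i ⬝ᵥ z = 0) → z = 0) :
    3 ^ d ≤ GRD.NL (LinearMap.range (TL w)) := by
  have hfr : finrank ℝ (LinearMap.range (TL w)) = d := by
    rw [LinearMap.finrank_range_of_inj (TL_inj w hinj)]
    simp
  obtain ⟨u, v, huv⟩ := GRD.exists_L2 (LinearMap.range (TL w))
    (by rw [hfr, Fintype.card_fin])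
  have hk := GRD.k2 K2L.hS u v
  rwa [← huv, hfr] at hk

/-- Kalai's inequality in dimension at most four -/
theorem kalai_low {d : ℕ} (hd : 1 ≤ d) (h4 : d ≤ 4) {P : Set (Fin d → ℝ)}
    (S : Finset (Fin d → ℝ)) (hS : P = convexHull ℝ (S : Set (Fin d → ℝ)))
    (hint : (interior P).Nonempty) (hsym : ∀ x ∈ P, -x ∈ P) (hfin : (Fc P).Finite) :
    3 ^ d ≤ (Fc P).ncard := by
  by_contra hlt
  push Not at hlt
  have hcomp : IsCompact P := by
    rw [hS]
    exact Set.Finite.isCompact_convexHull ℝ S.finite_toSet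
  rcases D4.many hd h4 ⟨S, hS⟩ hint hsym hfin hlt.le with h | ⟨w, hw⟩
  · obtain ⟨v, hPv, hinj⟩ := ex_vertex2 hd S hS hint hsym h
    have h1 := count_vertex (m := d + 1) v hPv hfin
    have h2 := cells_ge v hinj
    omega
  · have hinj := inj_of_bounded2 w hw hcomp.isBounded
    have h1 := count_facet w hw hfin
    have h2 := cells_ge w hinj
    omega

/-- Kalai's inequality in dimension four, Euclidean version -/
theorem kal4 (S : Finset (EuclideanSpace ℝ (Fin 4)))
    (hint : (interior (convexHull ℝ (S : Set (EuclideanSpace ℝ (Fin 4))))).Nonempty)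
    (hsym : ∀ x ∈ convexHull ℝ (S : Set (EuclideanSpace ℝ (Fin 4))),
      -x ∈ convexHull ℝ (S : Set (EuclideanSpace ℝ (Fin 4)))) :
    (3 : ℕ∞) ^ 4 ≤ {F : Set (EuclideanSpace ℝ (Fin 4)) |
      F.Nonempty ∧ IsExposed ℝ (convexHull ℝ (S : Set (EuclideanSpace ℝ (Fin 4)))) F}.encard := by
  classical
  set e : EuclideanSpace ℝ (Fin 4) ≃L[ℝ] (Fin 4 → ℝ) := EuclideanSpace.equiv (Fin 4) ℝ with he
  set P := convexHull ℝ (S : Set (EuclideanSpace ℝ (Fin 4))) with hP
  set 𝓕 := {F : Set (EuclideanSpace ℝ (Fin 4)) | F.Nonempty ∧ IsExposed ℝ P F} with h𝓕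
  have hmap : (fun F : Set (EuclideanSpace ℝ (Fin 4)) => e '' F) '' 𝓕 = Fc (e '' P) := by
    ext F
    constructor
    · rintro ⟨G, ⟨hG1, hG2⟩, rfl⟩
      refine ⟨fun _ => ?_, hG1.image _⟩
      obtain ⟨l, hl⟩ := hG2 hG1
      refine ⟨l.comp (e.symm : (Fin 4 → ℝ) →L[ℝ] EuclideanSpace ℝ (Fin 4)), ?_⟩
      ext y
      constructor
      · rintro ⟨x, hx, rfl⟩
        rw [hl] at hx
        refine ⟨⟨x, hx.1, rfl⟩, ?_⟩
        rintro _ ⟨z, hz, rfl⟩
        simpa using hx.2 z hz
      · rintro ⟨⟨x, hx, rfl⟩, hy⟩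
        refine ⟨x, ?_, rfl⟩
        rw [hl]
        refine ⟨hx, fun z hz => ?_⟩
        simpa using hy (e z) ⟨z, hz, rfl⟩
    · rintro ⟨hF2, hF1⟩
      obtain ⟨l, hl⟩ := hF2 hF1
      have hFe : F = e '' (e ⁻¹' F) := (Set.image_preimage_eq F e.surjective).symm
      refine ⟨e ⁻¹' F, ⟨?_, fun _ => ?_⟩, hFe.symm⟩
      · obtain ⟨y, hy⟩ := hF1
        exact ⟨e.symm y, by simpa using hy⟩
      · refine ⟨l.comp (e : EuclideanSpace ℝ (Fin 4) →L[ℝ] (Fin 4 → ℝ)), ?_⟩
        ext x
        rw [Set.mem_preimage, hl]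
        constructor
        · rintro ⟨⟨z, hz, hzx⟩, hy⟩
          have : z = x := e.injective hzx
          subst this
          exact ⟨hz, fun z' hz' => hy (e z') ⟨z', hz', rfl⟩⟩
        · rintro ⟨hx, hy⟩
          refine ⟨⟨x, hx, rfl⟩, ?_⟩
          rintro _ ⟨z, hz, rfl⟩
          exact hy z hz
  have hinjF : Set.InjOn (fun F : Set (EuclideanSpace ℝ (Fin 4)) => e '' F) 𝓕 :=
    fun F _ G _ h => e.injective.image_injective h
  have hcard : 𝓕.encard = (Fc (e '' P)).encard := by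
    rw [← hmap]
    exact (hinjF.encard_image).symm
  rw [hcard]
  by_cases hfin : (Fc (e '' P)).Finite
  · have h1 := kalai_low (d := 4) (by norm_num) le_rfl (P := e '' P) (S.image e) (by
      rw [hP, Finset.coe_image]
      exact (e.toLinearEquiv.toLinearMap.image_convexHull _)) (by
      obtain ⟨x, hx⟩ := hint
      have h3 : e '' interior P = interior (e '' P) := e.toHomeomorph.image_interior P
      rw [← h3]
      exact ⟨_, ⟨x, hx, rfl⟩⟩) (by
      rintro _ ⟨x, hx, rfl⟩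
      exact ⟨-x, hsym x hx, by rw [map_neg]⟩) hfin
    rw [hfin.encard_eq_coe_toFinset_card]
    rw [Set.ncard_eq_toFinset_card _ hfin] at h1
    exact_mod_cast h1
  · rw [Set.encard_eq_top hfin]
    exact le_top

end Pool.Agent.KEQ
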