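import Pool.Agent.K2L.Final
import Pool.Agent.K3E.Vtx

/-!
# Equality in the 3^d conjecture, at most `d + 2` pairs: definitions
-/

set_option autoImplicit false

open scoped BigOperators

namespace Pool.Agent.KEQ

open Pool.Agent.K2L

/-- the constraint `l` follows from the other ones (planar Gale vectors) -/
def RedG {m : ℕ} (g : Fin m → ℝ × ℝ) (l : Fin m) : Prop :=
  ∀ y : Fin m → ℝ, ∑ k, y k • g k = 0 → (∀ k, k ≠ l → |y k| ≤ 1) → |y l| ≤ 1

/-- the constraint `l` follows from the other ones -/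
def Red {ι : Type} (L : Submodule ℝ (ι → ℝ)) (l : ι) : Prop :=
  ∀ y ∈ L, (∀ k, k ≠ l → |y k| ≤ 1) → |y l| ≤ 1

/-- number of the lines of `S` with sign `s` at the position `r` -/
abbrev cntM {m : ℕ} (σ : Fin m → ℤˣ) (r : Fin m) (s : Bool) : ℕ :=
  _root_.KK.cnt (KK.bo σ) Finset.univ r s

/-- the mirror image of a configuration -/
def mir {m : ℕ} (g : Fin m → ℝ × ℝ) : Fin m → ℝ × ℝ := fun l => ((g l.rev).1, -(g l.rev).2)

/-- the class structure of the exceptional case: six coordinates in three pairs, the (signed) sums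
of the pairs agree -/
def BipL {ι : Type} (L : Submodule ℝ (ι → ℝ)) : Prop :=
  ∃ (e : Fin 3 × Bool ≃ ι) (ε : ι → ℝ), (∀ i, ε i = 1 ∨ ε i = -1) ∧
    ∀ y : ι → ℝ, y ∈ L ↔ ∀ a : Fin 3,
      ε (e (a, true)) * y (e (a, true)) + ε (e (a, false)) * y (e (a, false)) =
        ε (e (0, true)) * y (e (0, true)) + ε (e (0, false)) * y (e (0, false))

end Pool.Agent.KEQ
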