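import Pool.Agent.KEQ.Defs

/-!
# Equality, parallel classes: definitions
-/

set_option autoImplicit false

open scoped BigOperators Classical

namespace Pool.Agent.KEQ

open Pool.Agent.GRD Module

noncomputable section

/-- sorted directions -/
def Srt {p : ℕ} (U V : Fin p → ℝ) : Prop := ∀ a b : Fin p, a < b → 0 < U a * V b - V a * U b

/-- the octahedron `{∑ y = 0}` with the linear functional `∑ t y` -/
def W4 (t : Fin 4 → ℝ) : Submodule ℝ ((Fin 4 → ℝ) × ℝ) where
  carrier := {q | ∑ k, q.1 k = 0 ∧ q.2 = ∑ k, t k * q.1 k}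
  add_mem' := by
    rintro x y ⟨h1, h2⟩ ⟨h3, h4⟩
    constructor
    · simp only [Prod.fst_add, Pi.add_apply, Finset.sum_add_distrib]; rw [h1, h3, add_zero]
    · simp only [Prod.fst_add, Prod.snd_add, Pi.add_apply, mul_add, Finset.sum_add_distrib]
      rw [h2, h4]
  zero_mem' := by simp
  smul_mem' := by
    rintro r x ⟨h1, h2⟩
    constructor
    · simp only [Prod.smul_fst, Pi.smul_apply, smul_eq_mul, ← Finset.mul_sum]; rw [h1, mul_zero]
    · simp only [Prod.smul_fst, Prod.smul_snd, Pi.smul_apply, smul_eq_mul]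
      rw [h2, Finset.mul_sum]
      exact Finset.sum_congr rfl fun k _ => by ring

/-- the values of the functional at the three pairs of vertices -/
def a1 (t : Fin 4 → ℝ) : ℝ := t 0 + t 1 - t 2 - t 3
def a2 (t : Fin 4 → ℝ) : ℝ := t 0 - t 1 + t 2 - t 3
def a3 (t : Fin 4 → ℝ) : ℝ := t 0 - t 1 - t 2 + t 3

/-- the heights over the polytope are at most `M` -/
def Ht {κ : Type} (W : Submodule ℝ ((κ → ℝ) × ℝ)) (M : ℝ) : Prop :=
  ∀ q ∈ W, (∀ k, |q.1 k| ≤ 1) → |q.2| ≤ M

/-- total weight of the class `j` -/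
def wC {ι : Type} [Fintype ι] {p : ℕ} (c : ι → Fin p) (w : ι → ℝ) (j : Fin p) : ℝ :=
  ∑ i : {i // c i = j}, w i.1

/-- the weight of `l` transversal to the class `j` -/
def vv {ι : Type} {p : ℕ} (c : ι → Fin p) (w : ι → ℝ) (U V : Fin p → ℝ) (j : Fin p)
    (l : ι) : ℝ := w l * (U j * V (c l) - V j * U (c l))

end

end Pool.Agent.KEQ
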